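import Pool.Agent.MP_5baa61_gt.JF.Spec
import Mathlib.Order.Interval.Finset.Nat
import Mathlib.Data.Finset.Lattice.Fold
import Mathlib.Data.Set.Finite.Range
import Mathlib.Order.Monotone.Basic

/-! The dichotomy for arrays of positions on a front: second pass of the fusion argument. -/

namespace Pool.Agent.MP_5baa61_gt.JF

open Set Pool.Agent.MP_5baa61_gt.JA
open scoped Classical

namespace IR2

variable {g : Gd} {a : ℕ} {Y : Set Move} {H H' : Set ℕ} {DD DD' : Cell → Set Pos}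
  {F : Finset ℕ} {s : Move}

theorem acp_mono (h : Acp g Y F s H DD) (e : LeA g H' DD' H DD) : Acp g Y F s H' DD' :=
  fun H2 h2 hi f hf => h H2 (h2.trans e.1) hi f fun k hk l hl hF =>
    let ⟨P, h3, h4⟩ := hf k hk l hl hF
    ⟨P, e.2 k (h2 hk) l hl h3, h4⟩

theorem rej_mono (h : Rej g Y F s H DD) (e : LeA g H' DD' H DD) : Rej g Y F s H' DD' :=
  fun H2 D2 e2 => h H2 D2
    ⟨e2.1.trans e.1, fun k hk l hl => (e2.2 k hk l hl).trans (e.2 k (e2.1 hk) l hl)⟩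

theorem inf_tail (h : H.Infinite) (m : ℕ) : (H ∩ Ioi m).Infinite := fun hf =>
  h ((hf.union (finite_Iic m)).subset fun k hk =>
    (lt_or_ge m k).elim (fun h1 => Or.inl ⟨hk, h1⟩) Or.inr)

theorem arr_tail (h : Arr g H DD) (m : ℕ) : Arr g (H ∩ Ioi m) DD :=
  ⟨inf_tail h.1 m, fun n => let ⟨k0, h1⟩ := h.2 n; ⟨k0, fun k hk => h1 k hk.1⟩⟩

theorem not_mem (h : Arr g H DD) (hr : Rej g Y F s H DD) : s ∉ Y := fun hs =>
  hr H DD ⟨subset_rfl, fun _ _ _ _ => subset_rfl⟩ h fun _ _ _ f _ =>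
    ⟨∅, by simp, ∅, empty_mem_comp fun C hC => by simp [mem_pairs] at hC, by simpa using hs⟩

theorem mv_of (hJ : Grid g) (hw : WfA g a H DD) {m : ℕ} (hF : ∀ l ∈ F, l ∈ H ∧ l ≤ m)
    (hs : s ∈ Comp (sq g F) (MU DD)) : s ∈ Mv (0, g.bd (m + 1)) a := fun p hp => by
  obtain ⟨C, hC, hi⟩ := hs.1 p hp
  obtain ⟨P, hP, h1⟩ := hs.2 C hC
  obtain ⟨l, k, -, hk, hlk, rfl⟩ := mem_sq.1 hC
  have h2 := ((hw k (hF k hk).1).2 l hlk P hP).2.1 h1 p (mem_rs.2 ⟨hp, hi⟩)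
  have h3 : (g.J l k).2 ≤ g.bd (m + 1) :=
    (hJ.cell l k hlk).2.2.trans (hJ.bd_mono (Nat.succ_le_succ (hF k hk).2))
  exact ⟨⟨Nat.zero_le _, hi.2.trans_le h3⟩, h2.2⟩

theorem cut {k : ℕ} (hF : ∀ l ∈ F, l < k) {M : Cell → Set Move} {t : Move}
    (ht : t ∈ Comp (sq g (insert k F)) M) :
    ∃ s ∈ Comp (sq g F) M, ∃ u ∈ Comp (col g F k) M, t = s ∪ u := by
  rw [sq_insert g hF] at ht
  have key : ∀ W : Finset Cell, W ⊆ sq g F ∪ col g F k →
      t.filter (fun p => ∃ C ∈ W, inC C p.1) ∈ Comp W M := fun W hW => by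
    refine ⟨fun p hp => (Finset.mem_filter.1 hp).2, fun C hC => ?_⟩
    have : rs (t.filter fun p => ∃ C ∈ W, inC C p.1) C = rs t C := by
      ext p
      simp only [mem_rs, Finset.mem_filter]
      exact ⟨fun h => ⟨h.1.1, h.2⟩, fun h => ⟨⟨h.1, C, hC, h.2⟩, h.2⟩⟩
    rw [this]
    exact ht.2 C (hW hC)
  refine ⟨_, key _ Finset.subset_union_left, _, key _ Finset.subset_union_right, ?_⟩
  ext p
  simp only [Finset.mem_union, Finset.mem_filter]
  refine ⟨fun hp => ?_, fun h => h.elim And.left And.left⟩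
  obtain ⟨C, hC, hi⟩ := ht.1 p hp
  rcases Finset.mem_union.1 hC with h | h
  · exact Or.inl ⟨hp, C, h, hi⟩
  · exact Or.inr ⟨hp, C, h, hi⟩

/-- The sequence of chosen columns. -/
def seq (kf : Finset ℕ → ℕ → ℕ → ℕ) : ℕ → Finset ℕ × ℕ
  | 0 => (∅, 0)
  | n + 1 => (insert (kf (seq kf n).1 (seq kf n).2 n) (seq kf n).1, kf (seq kf n).1 (seq kf n).2 n)

theorem pass2 (h2 : StepStmt) (hJ : Grid g) (hw : WfA g a H DD) (hA : Arr g H DD)
    (hD : Dcd g a Y H DD) (hr : Rej g Y ∅ ∅ H DD) :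
    ∃ H' DD', H' ⊆ H ∧ (∀ C, DD' C ⊆ DD C) ∧ Arr g H' DD' ∧
      (∀ k ∈ H', ∀ l, g.ix l k → (DD' (g.J l k)).Nonempty) ∧
      ∀ G : Finset ℕ, (G : Set ℕ) ⊆ H' → ∀ t ∈ Comp (sq g G) (MU DD'), t ∉ Y := by
  have st : ∀ (F : Finset ℕ) (m n : ℕ), ∃ (k : ℕ) (D : Cell → Set Pos), (∀ l ∈ F, l ≤ m) →
      k ∈ H ∧ m < k ∧ (∀ C, D C ⊆ DD C) ∧
        (∀ l, g.ix l k → Deep (n * rr (g.J l k).1) (D (g.J l k))) ∧
        ∀ s ∈ Mv (0, g.bd (m + 1)) a, Rej g Y F s (H ∩ Ioi m) DD →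
          ∀ t ∈ Comp (col g F k) (MU D),
            Rej g Y (insert k F) (s ∪ t) (H ∩ Ioi k) DD := fun F m n => by
    by_cases h : ∀ l ∈ F, l ≤ m
    · obtain ⟨k, a1, a2, D, a3⟩ := h2 g a Y H DD hJ hw hA hD F m n h
      exact ⟨k, D, fun _ => ⟨a1, a2, a3⟩⟩
    · exact ⟨0, DD, fun h' => absurd h' h⟩
  choose kf df hs using st
  let k : ℕ → ℕ := fun n => kf (seq kf n).1 (seq kf n).2 n
  let D : ℕ → Cell → Set Pos := fun n => df (seq kf n).1 (seq kf n).2 n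
  have le : ∀ n, ∀ l ∈ (seq kf n).1, l ≤ (seq kf n).2 := fun n => by
    induction n with
    | zero => exact fun l hl => absurd hl (Finset.notMem_empty _)
    | succ n ih =>
      intro l hl
      rcases Finset.mem_insert.1 hl with rfl | hl
      · exact le_rfl
      · exact (ih l hl).trans (hs _ _ n ih).2.1.le
  have sp := fun n => hs _ _ n (le n)
  have mono : StrictMono k := strictMono_nat_of_lt_succ fun n => (sp (n + 1)).2.1
  have mem : ∀ n l, l ∈ (seq kf n).1 ↔ ∃ j < n, k j = l := fun n => by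
    induction n with
    | zero => simp [seq]
    | succ n ih =>
      intro l
      rw [seq, Finset.mem_insert, ih]
      constructor
      · rintro (rfl | ⟨j, h, rfl⟩)
        exacts [⟨n, Nat.lt_succ_self n, rfl⟩, ⟨j, Nat.lt_succ_of_lt h, rfl⟩]
      · rintro ⟨j, h, rfl⟩
        rcases Nat.lt_succ_iff_lt_or_eq.1 h with h | rfl
        exacts [Or.inr ⟨j, h, rfl⟩, Or.inl rfl]
  let D2 : Cell → Set Pos := fun C =>
    {P | P ∈ DD C ∧ ∀ n l, g.ix l (k n) → C = g.J l (k n) → P ∈ D n C}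
  have sub : ∀ n l, g.ix l (k n) → D n (g.J l (k n)) ⊆ D2 (g.J l (k n)) := fun n l hl P hP =>
    ⟨(sp n).2.2.1 _ hP, fun n' l' hl' e => mono.injective (hJ.inj hl hl' e).2 ▸ hP⟩
  have dp : ∀ n l, g.ix l (k n) → Deep (n * rr (g.J l (k n)).1) (D2 (g.J l (k n))) :=
    fun n l hl => ((sp n).2.2.2.1 l hl).mono (sub n l hl)
  have hw2 : WfA g a H D2 := fun j hj => ⟨(hw j hj).1, fun l hl P hP => (hw j hj).2 l hl P hP.1⟩
  have inH : ∀ n, ∀ l ∈ (seq kf n).1, l ∈ H := fun n l hl => by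
    obtain ⟨j, -, rfl⟩ := (mem n l).1 hl
    exact (sp j).1
  have inv : ∀ n, ∀ t ∈ Comp (sq g (seq kf n).1) (MU D2),
      Rej g Y (seq kf n).1 t (H ∩ Ioi (seq kf n).2) DD := fun n => by
    induction n with
    | zero =>
      intro t ht
      have : t = ∅ := Finset.eq_empty_of_forall_notMem fun p hp => by
        obtain ⟨C, hC, -⟩ := ht.1 p hp
        simp [seq, mem_sq] at hC
      subst this
      exact rej_mono hr ⟨inter_subset_left, fun _ _ _ _ => subset_rfl⟩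
    | succ n ih =>
      intro t ht
      have lt : ∀ l ∈ (seq kf n).1, l < k n := fun l hl => (le n l hl).trans_lt (sp n).2.1
      obtain ⟨s, h3, u, h4, rfl⟩ := cut lt ht
      refine (sp n).2.2.2.2 s (mv_of hJ hw2 (fun l hl => ⟨inH n l hl, le n l hl⟩) h3) (ih s h3) u
        (Comp.mono_fam (fun C hC => ?_) h4)
      obtain ⟨l, -, hl, rfl⟩ := mem_col.1 hC
      exact fun v ⟨P, hP, hv⟩ => ⟨P, hP.2 n l hl rfl, hv⟩
  refine ⟨range k, D2, range_subset_iff.2 fun n => (sp n).1, fun C P hP => hP.1,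
    ⟨infinite_range_of_injective mono.injective, fun n => ⟨k n, ?_⟩⟩, ?_, fun G hG t ht => ?_⟩
  · rintro _ ⟨j, rfl⟩ hj l hl
    exact (dp j l hl).anti (Nat.mul_le_mul_right _ (mono.le_iff_le.1 hj))
  · rintro _ ⟨j, rfl⟩ l hl
    exact (dp j l hl).nonempty
  · have hG' : G ⊆ (seq kf (G.sup id + 1)).1 := fun l hl => by
      obtain ⟨j, rfl⟩ := hG hl
      exact (mem _ _).2 ⟨j, Nat.lt_succ_of_le (mono.le_apply.trans (Finset.le_sup (f := id) hl)),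
        rfl⟩
    refine not_mem (arr_tail hA _) (inv (G.sup id + 1) t (Comp.mono_cells (hJ.disj_pairs _ _)
      (sq_mono g hG') (fun C hC _ => ?_) ht))
    obtain ⟨l, j, -, a2, a3, rfl⟩ := mem_sq.1 hC
    obtain ⟨i, -, rfl⟩ := (mem _ _).1 a2
    obtain ⟨P, hP⟩ := (dp i l a3).nonempty
    exact ⟨P, hP, ((hw2 _ (sp i).1).2 l a3 P hP).1⟩

end IR2

open IR2 in
theorem ir2 (h1 : Pass1Stmt) (h2 : StepStmt) : IR2Stmt := by
  intro g a Y H DD hJ hw hA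
  by_cases hr : Rej g Y ∅ ∅ H DD
  · obtain ⟨H1, D1, a1, a2, a3, a4⟩ := h1 g a Y H DD hJ hA
    obtain ⟨H2, D2, b1, b2, b3, b4, b5⟩ := pass2 h2 hJ
      (fun k hk => ⟨(hw k (a1 hk)).1, fun l hl P hP => (hw k (a1 hk)).2 l hl P (a2 _ hP)⟩) a3 a4
      (rej_mono hr ⟨a1, fun _ _ _ _ => a2 _⟩)
    exact ⟨H2, D2, b1.trans a1, fun C => (b2 C).trans (a2 C), b3, b4, Or.inl b5⟩
  · simp only [Rej, not_forall, not_not] at hr
    obtain ⟨H1, D1, a1, a2, a3⟩ := hr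
    have a4 : Arr g H1 fun C => D1 C ∩ DD C := ⟨a2.1, fun n =>
      let ⟨k0, h⟩ := a2.2 n
      ⟨k0, fun k hk h0 l hl => (h k hk h0 l hl).mono (subset_inter subset_rfl (a1.2 k hk l hl))⟩⟩
    obtain ⟨k0, h0⟩ := a4.2 0
    exact ⟨H1 ∩ Ioi k0, fun C => D1 C ∩ DD C, inter_subset_left.trans a1.1,
      fun _ => inter_subset_right, arr_tail a4 k0,
      fun k hk l hl => (h0 k hk.1 (le_of_lt hk.2) l hl).nonempty,
      Or.inr (acp_mono a3 ⟨inter_subset_left, fun _ _ _ _ => inter_subset_left⟩)⟩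

end Pool.Agent.MP_5baa61_gt.JF
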