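import Pool.Agent.MP_5baa61_gt.JF.Spec
import Mathlib.Order.Interval.Finset.Nat
import Mathlib.Order.Preorder.Finite
import Mathlib.Data.Finite.Prod

/-! First pass of the Galvin argument on a front: an array that decides all small states. -/

namespace Pool.Agent.MP_5baa61_gt.JF

open Set Pool.Agent.MP_5baa61_gt.JA

namespace Pass1

variable {J : Gd} {Y : Set Move}

theorem le_refl (H : Set ℕ) (DD : Cell → Set Pos) : LeA J H DD H DD :=
  ⟨Subset.rfl, fun _ _ _ _ => Subset.rfl⟩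

theorem le_trans {H1 H2 H3 : Set ℕ} {D1 D2 D3 : Cell → Set Pos} (h : LeA J H1 D1 H2 D2)
    (h' : LeA J H2 D2 H3 D3) : LeA J H1 D1 H3 D3 :=
  ⟨h.1.trans h'.1, fun k hk l hl => (h.2 k hk l hl).trans (h'.2 k (h.1 hk) l hl)⟩

def Dec (J : Gd) (Y : Set Move) (F : Finset ℕ) (s : Move) (H : Set ℕ)
    (DD : Cell → Set Pos) : Prop := Acp J Y F s H DD ∨ Rej J Y F s H DD

theorem Dec.mono {F : Finset ℕ} {s : Move} {H H' : Set ℕ} {D D' : Cell → Set Pos}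
    (h : Dec J Y F s H D) (e : LeA J H' D' H D) : Dec J Y F s H' D' := by
  refine h.imp (fun h H2 h2 hi f hf => ?_) (fun h H2 D2 h2 => h H2 D2 (le_trans h2 e))
  refine h H2 (h2.trans e.1) hi f fun k hk l hl hm => ?_
  obtain ⟨P, hP, ho⟩ := hf k hk l hl hm
  exact ⟨P, e.2 k (h2 hk) l hl hP, ho⟩

theorem one (F : Finset ℕ) (s : Move) {H : Set ℕ} {D : Cell → Set Pos} (h : Arr J H D) :
    ∃ H' D', LeA J H' D' H D ∧ Arr J H' D' ∧ Dec J Y F s H' D' := by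
  by_cases hr : Rej J Y F s H D
  · exact ⟨H, D, le_refl H D, h, Or.inr hr⟩
  · by_contra hn
    exact hr fun H' D' h1 h2 h3 => hn ⟨H', D', h1, h2, Or.inl h3⟩

theorem many {S : Set (Finset ℕ × Move)} (hS : S.Finite) {H : Set ℕ} {D : Cell → Set Pos}
    (h : Arr J H D) : ∃ H' D', LeA J H' D' H D ∧ Arr J H' D' ∧ ∀ p ∈ S, Dec J Y p.1 p.2 H' D' := by
  induction S, hS using Set.Finite.induction_on with
  | empty => exact ⟨H, D, le_refl H D, h, fun _ hp => hp.elim⟩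
  | @insert p S _ _ ih =>
    obtain ⟨H1, D1, h1, h2, h3⟩ := ih
    obtain ⟨H2, D2, h4, h5, h6⟩ := one (Y := Y) p.1 p.2 h2
    refine ⟨H2, D2, le_trans h4 h1, h5, ?_⟩
    rintro q (rfl | hq)
    · exact h6
    · exact (h3 q hq).mono h4

theorem tail {H : Set ℕ} {D : Cell → Set Pos} (h : Arr J H D) (k : ℕ) : Arr J (H ∩ Ioi k) D := by
  refine ⟨(h.1.sdiff (finite_Iic k)).mono fun x hx => ⟨hx.1, by simpa using hx.2⟩, fun n => ?_⟩
  obtain ⟨k0, h0⟩ := h.2 n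
  exact ⟨k0, fun x hx => h0 x hx.1⟩

/-- Arrays. -/
abbrev Ar (J : Gd) : Type := {p : Set ℕ × (Cell → Set Pos) // Arr J p.1 p.2}

theorem step (a : ℕ) (p : Ar J) (n : ℕ) : ∃ (k : ℕ) (q : Ar J), k ∈ p.1.1 ∧
    (∀ l, J.ix l k → Deep (n * rr (J.J l k).1) (p.1.2 (J.J l k))) ∧
    LeA J q.1.1 q.1.2 (p.1.1 ∩ Ioi k) p.1.2 ∧
    ∀ F : Finset ℕ, (∀ l ∈ F, l ≤ k) → ∀ s ∈ Mv (0, J.bd (k + 1)) a,
      Dec J Y F s q.1.1 q.1.2 := by
  obtain ⟨k0, h0⟩ := p.2.2 n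
  obtain ⟨k, hk, hk0⟩ := p.2.1.exists_gt k0
  have hS : ((↑(Finset.range (k + 1)).powerset : Set (Finset ℕ)) ×ˢ
      Mv (0, J.bd (k + 1)) a).Finite := (Finset.finite_toSet _).prod (finite_mv _ a)
  obtain ⟨H', D', h1, h2, h3⟩ := many (Y := Y) hS (tail p.2 k)
  refine ⟨k, ⟨(H', D'), h2⟩, hk, h0 k hk hk0.le, h1, fun F hF s hs => h3 (F, s) ⟨?_, hs⟩⟩
  exact Finset.mem_coe.2 (Finset.mem_powerset.2 fun l hl =>
    Finset.mem_range.2 (Nat.lt_succ_of_le (hF l hl)))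

end Pass1

open Pass1 in
theorem pass1 : Pass1Stmt := by
  intro J a Y H DD hJ hA
  choose κ q h1 h2 h3 h4 using step (J := J) (Y := Y) a
  let p : ℕ → Ar J := fun n => Nat.rec ⟨(H, DD), hA⟩ (fun n x => q x n) n
  let k : ℕ → ℕ := fun n => κ (p n) n
  have hk : ∀ n, k n ∈ (p n).1.1 := fun n => h1 (p n) n
  have hs : ∀ n, LeA J (p (n + 1)).1.1 (p (n + 1)).1.2 ((p n).1.1 ∩ Ioi (k n)) (p n).1.2 :=
    fun n => h3 (p n) n
  have hm : StrictMono k := strictMono_nat_of_lt_succ fun n => ((hs n).1 (hk (n + 1))).2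
  have hle : ∀ n m, n ≤ m → LeA J (p m).1.1 (p m).1.2 (p n).1.1 (p n).1.2 := by
    intro n m h
    induction h with
    | refl => exact le_refl _ _
    | @step m _ ih =>
      exact le_trans ⟨(hs m).1.trans inter_subset_left, (hs m).2⟩ ih
  let D : Cell → Set Pos := fun C =>
    {P | P ∈ DD C ∧ ∀ n l, J.ix l (k n) → C = J.J l (k n) → P ∈ (p n).1.2 C}
  have hD : ∀ n l, J.ix l (k n) → (p n).1.2 (J.J l (k n)) ⊆ D (J.J l (k n)) := by
    intro n l hl P hP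
    refine ⟨(hle 0 n (Nat.zero_le n)).2 _ (hk n) l hl hP, fun m l' hl' e => ?_⟩
    have : n = m := hm.injective (hJ.inj hl hl' e).2
    subst this
    exact hP
  refine ⟨range k, D, ?_, fun C P hP => hP.1, ⟨infinite_range_of_injective hm.injective,
    fun n => ⟨k n, ?_⟩⟩, ?_⟩
  · rintro _ ⟨n, rfl⟩
    exact (hle 0 n (Nat.zero_le n)).1 (hk n)
  · rintro _ ⟨m, rfl⟩ h l hl
    exact ((h2 (p m) m l hl).anti
      (Nat.mul_le_mul_right _ (hm.le_iff_le.1 h))).mono (hD m l hl)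
  · rintro _ ⟨n, rfl⟩ F hF s hs'
    refine Dec.mono (h4 (p n) n F hF s hs') ⟨?_, ?_⟩
    · rintro _ ⟨⟨m, rfl⟩, h⟩
      exact (hle (n + 1) m (hm.lt_iff_lt.1 h)).1 (hk m)
    · rintro _ ⟨⟨m, rfl⟩, h⟩ l hl P hP
      exact (hle (n + 1) m (hm.lt_iff_lt.1 h)).2 _ (hk m) l hl (hP.2 m l hl rfl)

end Pool.Agent.MP_5baa61_gt.JF
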