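import Pool.Agent.MP_5baa61_gt.JA.Spec

/-! Universal creatures on a front: definitions and statements. -/

namespace Pool.Agent.MP_5baa61_gt.JF

open Set Pool.Agent.MP_5baa61_gt.JA
open scoped Classical

/-- Cells indexed by pairs `(t, k)`, `t` a member of `B` below `k`; column `k` lies between
`bd k` and `bd (k + 1)`. -/
structure Gd where
  B : Finset ℕ → Prop
  J : Finset ℕ → ℕ → Cell
  bd : ℕ → ℕ

def Gd.ix (g : Gd) (t : Finset ℕ) (k : ℕ) : Prop := g.B t ∧ 1 ≤ k ∧ ∀ i ∈ t, i < k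

/-- No member is a proper initial segment of another member. -/
def Thin (B : Finset ℕ → Prop) : Prop :=
  ∀ t t', B t → B t' → t ⊆ t' → (∀ i ∈ t', i ∉ t → ∀ j ∈ t, j < i) → t = t'

/-- Every infinite set contains a member. -/
def Front (B : Finset ℕ → Prop) : Prop :=
  ∀ H : Set ℕ, H.Infinite → ∃ t, B t ∧ (t : Set ℕ) ⊆ H

structure Grid (g : Gd) : Prop where
  thin : Thin g.B
  bd : ∀ k, k ≤ g.bd k ∧ g.bd k ≤ g.bd (k + 1)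
  cell : ∀ t k, g.ix t k →
    g.bd k ≤ (g.J t k).1 ∧ (g.J t k).1 < (g.J t k).2 ∧ (g.J t k).2 ≤ g.bd (k + 1)
  apart : ∀ t t' k, g.ix t k → g.ix t' k → t ≠ t' →
    (g.J t k).2 ≤ (g.J t' k).1 ∨ (g.J t' k).2 ≤ (g.J t k).1

noncomputable def pairs (g : Gd) (F G : Finset ℕ) : Finset Cell :=
  (((F ∪ G).powerset ×ˢ G).filter fun p => g.ix p.1 p.2).image fun p => g.J p.1 p.2

noncomputable def sq (g : Gd) (G : Finset ℕ) : Finset Cell := pairs g ∅ G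

/-- The cells of the column `k` over `F`. -/
noncomputable def col (g : Gd) (F : Finset ℕ) (k : ℕ) : Finset Cell :=
  (F.powerset.filter fun t => g.ix t k).image fun t => g.J t k

def Arr (g : Gd) (H : Set ℕ) (DD : Cell → Set Pos) : Prop :=
  H.Infinite ∧ ∀ n, ∃ k0, ∀ k ∈ H, k0 ≤ k → ∀ t, g.ix t k →
    Deep (n * rr (g.J t k).1) (DD (g.J t k))

def WfA (g : Gd) (a : ℕ) (H : Set ℕ) (DD : Cell → Set Pos) : Prop :=
  ∀ k ∈ H, a ≤ k ∧ ∀ t, g.ix t k → ∀ P ∈ DD (g.J t k), Wf (g.J t k) a P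

def LeA (g : Gd) (H' : Set ℕ) (DD' : Cell → Set Pos) (H : Set ℕ) (DD : Cell → Set Pos) : Prop :=
  H' ⊆ H ∧ ∀ k ∈ H', ∀ t, g.ix t k → DD' (g.J t k) ⊆ DD (g.J t k)

def Acp (g : Gd) (Y : Set Move) (F : Finset ℕ) (s : Move) (H : Set ℕ)
    (DD : Cell → Set Pos) : Prop :=
  ∀ H' ⊆ H, H'.Infinite → ∀ f : Cell → Set Move,
    (∀ k ∈ H', ∀ t, g.ix t k → (∀ i ∈ t, i ∈ F ∨ i ∈ H') → f (g.J t k) ∈ OU DD (g.J t k)) →
      ∃ G : Finset ℕ, (G : Set ℕ) ⊆ H' ∧ ∃ u ∈ Comp (pairs g F G) f, s ∪ u ∈ Y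

def Rej (g : Gd) (Y : Set Move) (F : Finset ℕ) (s : Move) (H : Set ℕ)
    (DD : Cell → Set Pos) : Prop :=
  ∀ H' DD', LeA g H' DD' H DD → Arr g H' DD' → ¬ Acp g Y F s H' DD'

def Dcd (g : Gd) (a : ℕ) (Y : Set Move) (H : Set ℕ) (DD : Cell → Set Pos) : Prop :=
  ∀ k ∈ H, ∀ F : Finset ℕ, (∀ l ∈ F, l ≤ k) → ∀ s ∈ Mv (0, g.bd (k + 1)) a,
    Acp g Y F s (H ∩ Ioi k) DD ∨ Rej g Y F s (H ∩ Ioi k) DD

def Pass1Stmt : Prop := ∀ (g : Gd) (a : ℕ) (Y : Set Move) (H : Set ℕ)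
  (DD : Cell → Set Pos), Grid g → Arr g H DD →
    ∃ H' DD', H' ⊆ H ∧ (∀ C, DD' C ⊆ DD C) ∧ Arr g H' DD' ∧ Dcd g a Y H' DD'

def StepStmt : Prop := ∀ (g : Gd) (a : ℕ) (Y : Set Move) (H : Set ℕ)
  (DD : Cell → Set Pos), Grid g → WfA g a H DD → Arr g H DD → Dcd g a Y H DD →
    ∀ (F : Finset ℕ) (m n : ℕ), (∀ l ∈ F, l ≤ m) → ∃ k ∈ H, m < k ∧ ∃ DD' : Cell → Set Pos,
      (∀ C, DD' C ⊆ DD C) ∧ (∀ t, g.ix t k → Deep (n * rr (g.J t k).1) (DD' (g.J t k))) ∧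
        ∀ s ∈ Mv (0, g.bd (m + 1)) a, Rej g Y F s (H ∩ Ioi m) DD →
          ∀ u ∈ Comp (col g F k) (MU DD'), Rej g Y (insert k F) (s ∪ u) (H ∩ Ioi k) DD

def IR2Stmt : Prop := ∀ (g : Gd) (a : ℕ) (Y : Set Move) (H : Set ℕ)
  (DD : Cell → Set Pos), Grid g → WfA g a H DD → Arr g H DD →
    ∃ H' DD', H' ⊆ H ∧ (∀ C, DD' C ⊆ DD C) ∧ Arr g H' DD' ∧
      (∀ k ∈ H', ∀ t, g.ix t k → (DD' (g.J t k)).Nonempty) ∧
      ((∀ G : Finset ℕ, (G : Set ℕ) ⊆ H' → ∀ u ∈ Comp (sq g G) (MU DD'), u ∉ Y) ∨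
        Acp g Y ∅ ∅ H' DD')

def CptStmt : Prop := ∀ (g : Gd) (a : ℕ) (Y : Set Move) (H : Set ℕ)
  (DD : Cell → Set Pos), Grid g → WfA g a H DD → Acp g Y ∅ ∅ H DD →
    ∀ H' ⊆ H, H'.Infinite → ∃ G : Finset ℕ, (G : Set ℕ) ⊆ H' ∧ ∀ G' : Finset ℕ, G ⊆ G' →
      (G' : Set ℕ) ⊆ H → ∀ f : Cell → Set Move, (∀ C ∈ sq g G', f C ∈ OU DD C) →
        ∃ u ∈ Comp (sq g G') f, u ∈ Y

def Dns (g : Gd) (AA : Set (Finset ℕ)) (H : Set ℕ) : Prop :=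
  (∀ G ∈ AA, (sq g G).Nonempty) ∧
    (∀ G ∈ AA, ∀ G' : Finset ℕ, G ⊆ G' → (G' : Set ℕ) ⊆ H → G' ∈ AA) ∧
    ∀ H' ⊆ H, H'.Infinite → ∃ G ∈ AA, (G : Set ℕ) ⊆ H'

noncomputable def skq (g : Gd) (G0 : Finset ℕ) (AA : Set (Finset ℕ)) : Sk :=
  (sq g G0, (G0.powerset.filter fun G => G ∈ AA).image (sq g))

def T2At (g : Gd) (a : ℕ) (Φ : Sk → Prop) : Prop :=
  ∀ (AA : Set (Finset ℕ)) (H : Set ℕ), H.Infinite → (∀ k ∈ H, a ≤ k) → Dns g AA H →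
    ∃ G0 : Finset ℕ, (G0 : Set ℕ) ⊆ H ∧ Φ (skq g G0 AA)

/-- The partition theorem for thin families. -/
def RamStmt : Prop := ∀ (B : Finset ℕ → Prop) (c : Finset ℕ → ℕ → Prop) (H : Set ℕ), Thin B →
  H.Infinite → ∃ H' ⊆ H, H'.Infinite ∧
    ((∀ t k, B t → (t : Set ℕ) ⊆ H' → k ∈ H' → (∀ i ∈ t, i < k) → c t k) ∨
      ∀ t k, B t → (t : Set ℕ) ⊆ H' → k ∈ H' → (∀ i ∈ t, i < k) → ¬ c t k)

def T2SStmt : Prop := ∀ (g : Gd) (a l : ℕ), Grid g → T2At g a (Un a l) → T2At g a (ClS (Un a l))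

def T2DStmt : Prop := ∀ (g : Gd) (a l : ℕ), Grid g → T2At g a (Un a l) →
  T2At g a (ClD a (Un a l))

def T2Stmt : Prop := ∀ (g : Gd) (a l : ℕ), Grid g → T2At g a fun s => SkWf s ∧ Un a l s

/-- An array of states. -/
def ArS (lam : Lam) (g : Gd) (σ : Finset ℕ → ℕ → Sta) : Prop :=
  Grid g ∧ ∀ t k, g.ix t k → Mod lam (g.J t k).1 (k + 1) (σ t k) ∧ Ins (σ t k).1.1 (g.J t k)

def arD (lam : Lam) (a : ℕ) (g : Gd) (σ : Finset ℕ → ℕ → Sta) (C : Cell) : Set Pos :=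
  {Q | ∃ t k, g.ix t k ∧ C = g.J t k ∧ ∃ σ', Sub σ' (σ t k) ∧ Mod lam C.1 k σ' ∧
    Q = CompP σ'.1 fun B => leaf a B σ'.2}

def ArDStmt : Prop := ∀ (lam : Lam) (a : ℕ) (g : Gd) (σ : Finset ℕ → ℕ → Sta), CS lam →
  ArS lam g σ → WfA g a (Ici a) (arD lam a g σ) ∧ Arr g (Ici a) (arD lam a g σ)

/-- The first alternative. -/
def KillD (lam : Lam) (Pi : Cell → Prop) (a : ℕ) (X : Move → Prop) (g : Gd)
    (σ : Finset ℕ → ℕ → Sta) (H : ℕ → Prop) (σ' : Finset ℕ → ℕ → Sta) : Prop :=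
  (∀ n, ∃ k, n ≤ k ∧ H k) ∧
    (∀ t k, g.ix t k → (∀ i ∈ t, H i) → H k →
      Sub (σ' t k) (σ t k) ∧ Mod lam (g.J t k).1 k (σ' t k)) ∧
      ∀ u, X u → ¬ Legal Pi a
        (fun e => ∃ t k, g.ix t k ∧ (∀ i ∈ t, H i) ∧ H k ∧ e ∈ (σ' t k).2) u

/-- The second alternative. -/
def AccD (lam : Lam) (a : ℕ) (X : Move → Prop) (g : Gd) (σ : Finset ℕ → ℕ → Sta) : Prop :=
  ∀ c, ∃ ρ : Sta, Mod lam c c ρ ∧ Meets (TLp a X) ρ ∧
    (∀ e ∈ ρ.2, ∃ t k, g.ix t k ∧ e ∈ (σ t k).2) ∧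
    ∀ u ∈ ρ.1.2, ∃ t k, g.ix t k ∧ c ≤ k ∧ ∃ c' ∈ (σ t k).1.2, Ref (u, ρ.2) (c', (σ t k).2)

def TlkFStmt : Prop := ∀ (lam : Lam) (Pi : Cell → Prop) (a : ℕ) (X : Move → Prop)
  (g : Gd) (σ : Finset ℕ → ℕ → Sta) (H : Set ℕ) (DD : Cell → Set Pos), CS lam → On lam Pi →
    ArS lam g σ → H.Infinite → (∀ C, DD C ⊆ arD lam a g σ C) →
      (∀ k ∈ H, ∀ t, g.ix t k → (DD (g.J t k)).Nonempty) →
        (∀ G : Finset ℕ, (G : Set ℕ) ⊆ H → ∀ u ∈ Comp (sq g G) (MU DD), u ∉ {u | X u}) →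
          ∃ σ', KillD lam Pi a X g σ (fun k => k ∈ H) σ'

def TlkAStmt : Prop := ∀ (lam : Lam) (a : ℕ) (X : Move → Prop)
  (g : Gd) (σ : Finset ℕ → ℕ → Sta) (H : Set ℕ) (DD : Cell → Set Pos), CS lam → Front g.B →
    ArS lam g σ → H.Infinite → WfA g a H DD → (∀ C, DD C ⊆ arD lam a g σ C) →
      (∀ k ∈ H, ∀ t, g.ix t k → (DD (g.J t k)).Nonempty) → Acp g {u | X u} ∅ ∅ H DD →
        AccD lam a X g σ

def TlkStmt : Prop := ∀ (lam : Lam) (Pi : Cell → Prop) (a : ℕ) (X : Move → Prop)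
  (g : Gd) (σ : Finset ℕ → ℕ → Sta), CS lam → On lam Pi → Front g.B → ArS lam g σ →
    (∃ H σ', KillD lam Pi a X g σ H σ') ∨ AccD lam a X g σ

/-- Norms on finite sets: `ν c x` says that the norm of `x` is at least `c`. -/
structure Nrm (ν : ℕ → Finset ℕ → Prop) : Prop where
  anti : ∀ c x, ν (c + 1) x → ν c x
  mono : ∀ c x x', ν c x → x ⊆ x' → ν c x'
  ne : ∀ x, ν 1 x → x.Nonempty
  spl : ∀ c x (A : Finset ℕ), ν (c + 1) x → ν c (x ∩ A) ∨ ν c (x \ A)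

def sing (e : ℕ) : Cell := (e, e + 1)

/-- Singleton cells; the offers are the subsets of norm at least `m`. -/
noncomputable def skN (ν : ℕ → Finset ℕ → Prop) (m : ℕ) (x : Finset ℕ) : Sk :=
  (x.image sing, (x.powerset.filter fun y => ν m y).image fun y => y.image sing)

def NuStmt : Prop := ∀ a l m : ℕ, 1 ≤ m → ∃ M, ∀ (ν : ℕ → Finset ℕ → Prop) (x : Finset ℕ),
  Nrm ν → (∀ e ∈ x, a ≤ e) → ν M x → SkWf (skN ν m x) ∧ Un a l (skN ν m x)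

/-! Basic facts. -/

theorem mem_pairs {g : Gd} {F G : Finset ℕ} {C : Cell} :
    C ∈ pairs g F G ↔ ∃ t k, (∀ i ∈ t, i ∈ F ∨ i ∈ G) ∧ k ∈ G ∧ g.ix t k ∧ C = g.J t k := by
  simp only [pairs, Finset.mem_image, Finset.mem_filter, Finset.mem_product, Finset.mem_powerset]
  exact ⟨fun ⟨p, ⟨⟨h1, h2⟩, h3⟩, h4⟩ =>
      ⟨p.1, p.2, fun i hi => Finset.mem_union.1 (h1 hi), h2, h3, h4.symm⟩,
    fun ⟨t, k, h1, h2, h3, h4⟩ =>
      ⟨(t, k), ⟨⟨fun i hi => Finset.mem_union.2 (h1 i hi), h2⟩, h3⟩, h4.symm⟩⟩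

theorem mem_sq {g : Gd} {G : Finset ℕ} {C : Cell} :
    C ∈ sq g G ↔ ∃ t k, t ⊆ G ∧ k ∈ G ∧ g.ix t k ∧ C = g.J t k := by
  simp only [sq, mem_pairs, Finset.notMem_empty, false_or]
  rfl

theorem mem_col {g : Gd} {F : Finset ℕ} {k : ℕ} {C : Cell} :
    C ∈ col g F k ↔ ∃ t, t ⊆ F ∧ g.ix t k ∧ C = g.J t k := by
  simp only [col, Finset.mem_image, Finset.mem_filter, Finset.mem_powerset]
  exact ⟨fun ⟨t, ⟨h1, h2⟩, h3⟩ => ⟨t, h1, h2, h3.symm⟩, fun ⟨t, h1, h2, h3⟩ => ⟨t, ⟨h1, h2⟩, h3.symm⟩⟩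

theorem sq_mono (g : Gd) {G G' : Finset ℕ} (h : G ⊆ G') : sq g G ⊆ sq g G' := fun _ hC =>
  let ⟨t, k, h1, h2, h3⟩ := mem_sq.1 hC; mem_sq.2 ⟨t, k, h1.trans h, h h2, h3⟩

theorem Grid.bd_mono {g : Gd} (h : Grid g) : Monotone g.bd :=
  monotone_nat_of_le_succ fun k => (h.bd k).2

theorem Grid.le_left {g : Gd} (h : Grid g) {t : Finset ℕ} {k : ℕ} (h1 : g.ix t k) :
    k ≤ (g.J t k).1 := (h.bd k).1.trans (h.cell t k h1).1

/-- Cells of an earlier column lie to the left. -/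
theorem Grid.lt {g : Gd} (h : Grid g) {t t' : Finset ℕ} {k k' : ℕ} (h1 : g.ix t k)
    (h2 : g.ix t' k') (e : k < k') : (g.J t k).2 ≤ (g.J t' k').1 :=
  (h.cell t k h1).2.2.trans ((h.bd_mono e).trans (h.cell t' k' h2).1)

theorem Grid.sep {g : Gd} (h : Grid g) {t t' : Finset ℕ} {k k' : ℕ} (h1 : g.ix t k)
    (h2 : g.ix t' k') (e : ¬ (t = t' ∧ k = k')) :
    (g.J t k).2 ≤ (g.J t' k').1 ∨ (g.J t' k').2 ≤ (g.J t k).1 := by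
  rcases lt_trichotomy k k' with h3 | rfl | h3
  · exact Or.inl (h.lt h1 h2 h3)
  · exact h.apart t t' k h1 h2 fun e' => e ⟨e', rfl⟩
  · exact Or.inr (h.lt h2 h1 h3)

theorem Grid.inj {g : Gd} (h : Grid g) {t t' : Finset ℕ} {k k' : ℕ} (h1 : g.ix t k)
    (h2 : g.ix t' k') (e : g.J t k = g.J t' k') : t = t' ∧ k = k' := by
  by_contra hn
  have a1 := (h.cell t k h1).2.1
  have a2 := h.sep h1 h2 hn
  rw [← e] at a2
  omega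

theorem Grid.disj {g : Gd} (h : Grid g) {W : Finset Cell}
    (hW : ∀ C ∈ W, ∃ t k, g.ix t k ∧ C = g.J t k) : Disj W := by
  refine ⟨fun C hC => ?_, fun C hC C' hC' hn => ?_⟩
  · obtain ⟨t, k, h1, rfl⟩ := hW C hC
    exact (h.cell t k h1).2.1
  · obtain ⟨t, k, h1, rfl⟩ := hW C hC
    obtain ⟨t', k', h2, rfl⟩ := hW C' hC'
    exact h.sep h1 h2 fun e => hn (by rw [e.1, e.2])

theorem Grid.disj_pairs {g : Gd} (h : Grid g) (F G : Finset ℕ) : Disj (pairs g F G) :=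
  h.disj fun _ hC => let ⟨t, k, _, _, h1, h2⟩ := mem_pairs.1 hC; ⟨t, k, h1, h2⟩

theorem Grid.disj_col {g : Gd} (h : Grid g) (F : Finset ℕ) (k : ℕ) : Disj (col g F k) :=
  h.disj fun _ hC => let ⟨t, _, h1, h2⟩ := mem_col.1 hC; ⟨t, k, h1, h2⟩

/-- Adding a column below `G`. -/
theorem pairs_insert (g : Gd) {F G : Finset ℕ} {k : ℕ} (hG : ∀ j ∈ G, k < j) :
    pairs g F (insert k G) = col g F k ∪ pairs g (insert k F) G := by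
  ext C
  simp only [mem_pairs, mem_col, Finset.mem_union, Finset.mem_insert]
  constructor
  · rintro ⟨t, j, h1, rfl | h2, h3, h4⟩
    · refine Or.inl ⟨t, fun i hi => ?_, h3, h4⟩
      have := h3.2.2 i hi
      rcases h1 i hi with h | h | h
      · exact h
      · omega
      · have := hG i h; omega
    · exact Or.inr ⟨t, j, fun i hi => by have := h1 i hi; tauto, h2, h3, h4⟩
  · rintro (⟨t, h1, h2, h3⟩ | ⟨t, j, h1, h2, h3, h4⟩)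
    · exact ⟨t, k, fun i hi => Or.inl (h1 hi), Or.inl rfl, h2, h3⟩
    · exact ⟨t, j, fun i hi => by have := h1 i hi; tauto, Or.inr h2, h3, h4⟩

/-- Adding a column on top. -/
theorem sq_insert (g : Gd) {F : Finset ℕ} {k : ℕ} (hF : ∀ j ∈ F, j < k) :
    sq g (insert k F) = sq g F ∪ col g F k := by
  ext C
  simp only [mem_sq, mem_col, Finset.mem_union, Finset.mem_insert]
  have key : ∀ t j, t ⊆ insert k F → j ≤ k → g.ix t j → t ⊆ F := fun t j h1 h2 h3 i hi => by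
    have := h3.2.2 i hi
    rcases Finset.mem_insert.1 (h1 hi) with h | h
    · omega
    · exact h
  constructor
  · rintro ⟨t, j, h1, rfl | h2, h3, h4⟩
    · exact Or.inr ⟨t, key t j h1 le_rfl h3, h3, h4⟩
    · exact Or.inl ⟨t, j, key t j h1 (hF j h2).le h3, h2, h3, h4⟩
  · rintro (⟨t, j, h1, h2, h3, h4⟩ | ⟨t, h1, h2, h3⟩)
    · exact ⟨t, j, h1.trans (Finset.subset_insert _ _), Or.inr h2, h3, h4⟩
    · exact ⟨t, k, h1.trans (Finset.subset_insert _ _), Or.inl rfl, h2, h3⟩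

theorem finite_ix (g : Gd) (k : ℕ) : {t | g.ix t k}.Finite :=
  (Finset.finite_toSet (Finset.range k).powerset).subset fun _ ht =>
    Finset.mem_coe.2 (Finset.mem_powerset.2 fun i hi => Finset.mem_range.2 (ht.2.2 i hi))

end Pool.Agent.MP_5baa61_gt.JF
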