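import Mathlib.Order.Filter.Ultrafilter.Basic
import Mathlib.Order.Filter.Cofinite
import Pool.Agent.MP_5baa61_gt.JF.Spec

/-! The partition theorem for thin families. -/

namespace Pool.Agent.MP_5baa61_gt.JF

open Set Filter
open scoped Classical

namespace Ram

/-- The family `G` propagates along the ultrafilter and ends in the colour `c`. -/
def Cl (U : Ultrafilter ℕ) (B : Finset ℕ → Prop) (c : Finset ℕ → ℕ → Prop)
    (G : Finset ℕ → Prop) : Prop :=
  ∀ t, G t → (B t → {k | c t k} ∈ U) ∧ (¬ B t → {k | G (insert k t)} ∈ U)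

theorem dich (U : Ultrafilter ℕ) (B : Finset ℕ → Prop) (c : Finset ℕ → ℕ → Prop) :
    (∃ G, G ∅ ∧ Cl U B c G) ∨ ∃ G, G ∅ ∧ Cl U B (fun t k => ¬ c t k) G := by
  refine or_iff_not_imp_left.2 fun h => ⟨fun t => ¬ ∃ G, G t ∧ Cl U B c G, h,
    fun t ht => ⟨fun hB => ?_, fun hB => ?_⟩⟩
  · refine Ultrafilter.compl_mem_iff_notMem.2 fun h1 => ht ⟨fun t' => t' = t, rfl, ?_⟩
    rintro _ rfl
    exact ⟨fun _ => h1, fun h2 => absurd hB h2⟩
  · refine Ultrafilter.compl_mem_iff_notMem.2 fun h1 =>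
      ht ⟨fun t' => t' = t ∨ ∃ G, G t' ∧ Cl U B c G, Or.inl rfl, ?_⟩
    rintro t' (rfl | ⟨G, h2, h3⟩)
    · exact ⟨fun h2 => absurd h2 hB, fun _ => mem_of_superset h1 fun k hk => Or.inr hk⟩
    · exact ⟨(h3 t' h2).1, fun h4 => mem_of_superset ((h3 t' h2).2 h4) fun k hk =>
        Or.inr ⟨G, hk, h3⟩⟩

theorem diag {U : Ultrafilter ℕ} {H : Set ℕ} (hH : H ∈ U) (hU : ∀ m, Ici m ∈ U)
    (S : Finset ℕ → Set ℕ) (hS : ∀ t, S t ∈ U) : ∃ H' ⊆ H, H'.Infinite ∧
      ∀ (t : Finset ℕ) (k : ℕ), (t : Set ℕ) ⊆ H' → k ∈ H' → (∀ i ∈ t, i < k) → k ∈ S t := by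
  have h1 : ∀ m, ∃ k ∈ H, m ≤ k ∧ ∀ t ∈ (Finset.range m).powerset, k ∈ S t := fun m => by
    have h2 : (⋂ t ∈ (Finset.range m).powerset, S t) ∈ (U : Filter ℕ) :=
      (biInter_finset_mem _).2 fun t _ => hS t
    obtain ⟨k, h3, h4, h5⟩ := U.nonempty_of_mem (inter_mem hH (inter_mem (hU m) h2))
    exact ⟨k, h3, h4, fun t ht => mem_iInter₂.1 h5 t ht⟩
  choose nx h2 h3 h4 using h1
  let m : ℕ → ℕ := fun n => Nat.rec 0 (fun _ x => nx x + 1) n
  have h5 : StrictMono m := strictMono_nat_of_lt_succ fun n => Nat.lt_succ_of_le (h3 _)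
  have h6 : StrictMono fun n => nx (m n) := strictMono_nat_of_lt_succ fun n => h3 (m (n + 1))
  refine ⟨range fun n => nx (m n), ?_, infinite_range_of_injective h6.injective, ?_⟩
  · rintro _ ⟨n, rfl⟩
    exact h2 _
  · rintro t _ ht ⟨n, rfl⟩ hlt
    refine h4 _ t (Finset.mem_powerset.2 fun i hi => Finset.mem_range.2 ?_)
    obtain ⟨j, rfl⟩ := ht hi
    exact h5.monotone (Nat.succ_le_of_lt (h6.lt_iff_lt.1 (hlt _ hi)))

theorem hom {U : Ultrafilter ℕ} {H : Set ℕ} (hH : H ∈ U) (hU : ∀ m, Ici m ∈ U)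
    {B : Finset ℕ → Prop} (hB : Thin B) {c : Finset ℕ → ℕ → Prop} {G : Finset ℕ → Prop}
    (h0 : G ∅) (hG : Cl U B c G) : ∃ H' ⊆ H, H'.Infinite ∧
      ∀ t k, B t → (t : Set ℕ) ⊆ H' → k ∈ H' → (∀ i ∈ t, i < k) → c t k := by
  obtain ⟨H', h1, h2, h3⟩ := diag hH hU
    (fun t => {k | G t → (B t → c t k) ∧ (¬ B t → G (insert k t))}) fun t => by
      by_cases h : G t
      · by_cases h' : B t
        · exact mem_of_superset ((hG t h).1 h') fun k hk _ => ⟨fun _ => hk, fun e => absurd h' e⟩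
        · exact mem_of_superset ((hG t h).2 h') fun k hk _ => ⟨fun e => absurd e h', fun _ => hk⟩
      · exact univ_mem' fun k e => absurd e h
  refine ⟨H', h1, h2, fun t k ht hs hk hlt => ?_⟩
  have h4 : ∀ n, G (t.filter fun i => i < n) := fun n => by
    induction n with
    | zero => simpa using h0
    | succ n ih =>
      by_cases hn : n ∈ t
      · have e : (t.filter fun i => i < n + 1) = insert n (t.filter fun i => i < n) := by
          ext i
          simp only [Finset.mem_filter, Finset.mem_insert]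
          exact ⟨fun h => (Nat.lt_succ_iff_lt_or_eq.1 h.2).symm.imp_right fun h' => ⟨h.1, h'⟩,
            fun h => h.elim (fun h' => by rw [h']; exact ⟨hn, Nat.lt_succ_self _⟩)
              fun h' => ⟨h'.1, h'.2.trans (Nat.lt_succ_self _)⟩⟩
        rw [e]
        refine (h3 _ n (fun i hi => hs (Finset.mem_filter.1 hi).1) (hs hn)
          (fun i hi => (Finset.mem_filter.1 hi).2) ih).2 fun h => ?_
        have h5 := hB _ t h ht (Finset.filter_subset _ _) fun i hi hi' j hj =>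
          (Finset.mem_filter.1 hj).2.trans_le (not_lt.1 fun h6 => hi' (Finset.mem_filter.2 ⟨hi, h6⟩))
        rw [← h5] at hn
        exact lt_irrefl n (Finset.mem_filter.1 hn).2
      · have e : (t.filter fun i => i < n + 1) = t.filter fun i => i < n :=
          Finset.filter_congr fun i hi => ⟨fun h => lt_of_le_of_ne (Nat.le_of_lt_succ h)
            fun h' => hn (h' ▸ hi), fun h => h.trans (Nat.lt_succ_self _)⟩
        rwa [e]
  have h5 := h4 k
  rw [Finset.filter_true_of_mem hlt] at h5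
  exact (h3 t k hs hk hlt h5).1 ht

end Ram

theorem ram : RamStmt := fun B c H hB hH => by
  have : (cofinite ⊓ 𝓟 H).NeBot := hH.cofinite_inf_principal_neBot
  obtain ⟨U, hU⟩ := Ultrafilter.exists_le (cofinite ⊓ 𝓟 H)
  have h1 : H ∈ U := hU (mem_inf_of_right (mem_principal_self H))
  have h2 : ∀ m, Ici m ∈ U := fun m => hU (mem_inf_of_left (by
    rw [mem_cofinite, compl_Ici]; exact finite_lt_nat m))
  rcases Ram.dich U B c with ⟨G, h0, hG⟩ | ⟨G, h0, hG⟩
  · obtain ⟨H', h3, h4, h5⟩ := Ram.hom h1 h2 hB h0 hG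
    exact ⟨H', h3, h4, Or.inl h5⟩
  · obtain ⟨H', h3, h4, h5⟩ := Ram.hom h1 h2 hB h0 hG
    exact ⟨H', h3, h4, Or.inr h5⟩

end Pool.Agent.MP_5baa61_gt.JF
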