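import Pool.Agent.MP_5baa61_gt.JF.Spec
import Pool.Agent.MP_5baa61_gt.JA.Step

/-! One step of the second pass on a front: rejected states stay rejected. -/

namespace Pool.Agent.MP_5baa61_gt.JF

open Set Pool.Agent.MP_5baa61_gt.JA
open scoped Classical

namespace Step

variable {g : Gd} {a : ℕ} {Y : Set Move} {H : Set ℕ} {DD : Cell → Set Pos}
  {F : Finset ℕ} {m n : ℕ}

/-- One column: a rejected state all of whose offers lead to accepted states. -/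
theorem one (h : JA.TupleStmt) (hG : Grid g) (hW : WfA g a H DD) (hA : Arr g H DD)
    (hD : Dcd g a Y H DD) (hF : ∀ l ∈ F, l ≤ m)
    (hc : ∀ k ∈ H, m < k → ∀ DD' : Cell → Set Pos, (∀ C, DD' C ⊆ DD C) →
      (∀ t, g.ix t k → Deep (n * rr (g.J t k).1) (DD' (g.J t k))) →
        ∃ s ∈ Mv (0, g.bd (m + 1)) a, Rej g Y F s (H ∩ Ioi m) DD ∧
          ∃ u ∈ Comp (col g F k) (MU DD'),
            ¬ Rej g Y (insert k F) (s ∪ u) (H ∩ Ioi k) DD) (j : ℕ) :
    ∃ k ∈ H, m < k ∧ j < k ∧ ∃ DD' : Cell → Set Pos, (∀ C, DD' C ⊆ DD C) ∧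
      (∀ t, g.ix t k → Deep (j * rr (g.J t k).1) (DD' (g.J t k))) ∧
      ∃ s ∈ Mv (0, g.bd (m + 1)) a, Rej g Y F s (H ∩ Ioi m) DD ∧
        ∀ f : Cell → Set Move, (∀ C ∈ col g F k, f C ∈ OU DD' C) →
          ∃ u ∈ Comp (col g F k) f, Acp g Y (insert k F) (s ∪ u) (H ∩ Ioi k) DD := by
  obtain ⟨k0, h0⟩ := hA.2 (n + j + 1)
  obtain ⟨k, k1, k2⟩ := hA.1.exists_gt (m + j + k0)
  obtain ⟨DD', d1, d2, d3, d4⟩ := h a (g.bd (m + 1)) (fun _ => n + j) (col g F k) DD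
    {u | Acp g Y (insert k F) u (H ∩ Ioi k) DD} (hG.disj_col F k) fun C hC => by
      obtain ⟨t, -, l1, rfl⟩ := mem_col.1 hC
      exact ⟨(hW k k1).1.trans (hG.le_left l1),
        (hG.bd_mono (by omega : m + 1 ≤ k)).trans (hG.cell t k l1).1, (hW k k1).2 t l1,
        h0 k k1 (by omega) t l1⟩
  have d5 : ∀ t, g.ix t k → Deep ((n + j) * rr (g.J t k).1) (DD' (g.J t k)) := fun t ht => by
    by_cases e : g.J t k ∈ col g F k
    · exact d3 _ e
    · rw [d2 _ e]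
      exact (h0 k k1 (by omega) t ht).anti (Nat.mul_le_mul_right _ (Nat.le_succ _))
  obtain ⟨s, s1, s2, u, t1, t2⟩ := hc k k1 (by omega) DD' d1 fun l hl =>
    (d5 l hl).anti (Nat.mul_le_mul_right _ (Nat.le_add_right _ _))
  refine ⟨k, k1, by omega, by omega, DD', d1, fun l hl =>
    (d5 l hl).anti (Nat.mul_le_mul_right _ (Nat.le_add_left _ _)), s, s1, s2,
    (d4 s s1).resolve_left fun e => e u t1 ((hD k k1 _ (fun l hl => ?_) _ fun p hp => ?_).resolve_right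
      t2)⟩
  · rcases Finset.mem_insert.1 hl with rfl | hl
    · exact le_rfl
    · have := hF l hl
      omega
  · rcases Finset.mem_union.1 hp with hp | hp
    · exact ⟨⟨Nat.zero_le _, (s1 p hp).1.2.trans_le (hG.bd_mono (by omega : m + 1 ≤ k + 1))⟩,
        (s1 p hp).2⟩
    · obtain ⟨C, c1, c2⟩ := t1.1 p hp
      obtain ⟨P, p1, p2⟩ := t1.2 C c1
      obtain ⟨t, -, l1, rfl⟩ := mem_col.1 c1
      exact ⟨⟨Nat.zero_le _, c2.2.trans_le (hG.cell t k l1).2.2⟩,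
        (((hW k k1).2 t l1 P (d1 _ p1)).2.1 p2 p (mem_rs.2 ⟨hp, c2⟩)).2⟩

end Step

open Step in
theorem step (h : JA.TupleStmt) : StepStmt := by
  intro γ a Y H DD hG hW hA hD F m n hF
  by_contra hc
  push Not at hc
  choose k k1 k2 k3 E e1 e2 s s1 s2 s3 using one h hG hW hA hD hF hc
  have := (finite_mv (0, γ.bd (m + 1)) a).to_subtype
  obtain ⟨⟨u, u1⟩, hu⟩ := Finite.exists_infinite_fiber
    fun j => (⟨s j, s1 j⟩ : Mv (0, γ.bd (m + 1)) a)
  obtain ⟨S, S1, S2⟩ : ∃ S : Set ℕ, S.Infinite ∧ ∀ j ∈ S, s j = u :=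
    ⟨_, infinite_coe_iff.1 hu, fun j hj => congrArg Subtype.val hj⟩
  have hg : ∀ c ∈ k '' S, ∃ j ∈ S, k j = c := fun _ h => h
  choose! g g1 g2 using hg
  let D : Cell → Set Pos := fun C => {P | ∃ l c, γ.ix l c ∧ C = γ.J l c ∧ P ∈ E (g c) C}
  have hDe : ∀ l c, γ.ix l c → D (γ.J l c) = E (g c) (γ.J l c) := fun l c hl =>
    Set.ext fun P => ⟨fun ⟨l', c', h1, h2, h3⟩ => (hG.inj hl h1 h2).2 ▸ h3,
      fun h => ⟨l, c, hl, rfl, h⟩⟩
  have hS : k '' S ⊆ H ∩ Ioi m := by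
    rintro _ ⟨j, -, rfl⟩
    exact ⟨k1 j, k2 j⟩
  obtain ⟨j0, hj0⟩ := S1.nonempty
  have hR := s2 j0
  rw [S2 j0 hj0] at hR
  refine hR (k '' S) D ⟨hS, fun c _ l hl => hDe l c hl ▸ e1 _ _⟩
    ⟨infinite_of_forall_exists_gt fun b => ?_, fun N => ⟨(Finset.range N).sup k + 1,
      fun c hc h0 l hl => ?_⟩⟩ ?_
  · obtain ⟨j, h1, h2⟩ := S1.exists_gt b
    exact ⟨k j, mem_image_of_mem _ h1, h2.trans (k3 j)⟩
  · have h1 : N ≤ g c := by
      by_contra hn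
      have := Finset.le_sup (f := k) (Finset.mem_range.2 (not_le.1 hn))
      rw [g2 c hc] at this
      omega
    have h2 := e2 (g c) l (by rw [g2 c hc]; exact hl)
    rw [g2 c hc] at h2
    rw [hDe l c hl]
    exact h2.anti (Nat.mul_le_mul_right _ h1)
  · intro H' h1 h2 f hf
    obtain ⟨c, hc⟩ := h2.nonempty
    have c1 := h1 hc
    have h3 := s3 (g c) f
    rw [g2 c c1, S2 _ (g1 c c1)] at h3
    obtain ⟨t, t1, t2⟩ := h3 fun C hC => by
      obtain ⟨l, l1, l2, rfl⟩ := mem_col.1 hC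
      obtain ⟨P, p1, p2⟩ := hf c hc l l2 fun i hi => .inl (l1 hi)
      exact ⟨P, hDe l c l2 ▸ p1, p2⟩
    obtain ⟨G, G1, t', t3, t4⟩ := t2 (H' ∩ Ioi c) (fun x hx => ⟨(hS (h1 hx.1)).1, hx.2⟩)
      (infinite_of_forall_exists_gt fun b => let ⟨x, x1, x2⟩ := h2.exists_gt (max b c)
        ⟨x, ⟨x1, (le_max_right _ _).trans_lt x2⟩, (le_max_left _ _).trans_lt x2⟩) f
      fun x hx l hl hl' => by
        obtain ⟨P, p1, p2⟩ := hf x hx.1 l hl fun i hi => by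
          rcases hl' i hi with hl' | hl'
          · rcases Finset.mem_insert.1 hl' with rfl | hl'
            exacts [.inr hc, .inl hl']
          · exact .inr hl'.1
        exact ⟨P, e1 _ _ (hDe l x hl ▸ p1), p2⟩
    have G2 : ∀ x ∈ G, c < x := fun x hx => (G1 hx).2
    refine ⟨insert c G, ?_, t ∪ t', JA.Step.comp_union (hG.disj_pairs _ _) (fun C => ?_) ?_ t1 t3,
      ?_⟩
    · rw [Finset.coe_insert]
      exact insert_subset hc fun x hx => (G1 hx).1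
    · rw [pairs_insert γ G2, Finset.mem_union]
    · intro C hC hC'
      obtain ⟨l, -, l1, rfl⟩ := mem_col.1 hC
      obtain ⟨l', x, -, x1, l2, e⟩ := mem_pairs.1 hC'
      exact (G2 x x1).ne (hG.inj l1 l2 e).2
    · rw [← Finset.union_assoc]
      exact t4

end Pool.Agent.MP_5baa61_gt.JF
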