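import Pool.Agent.MP_5baa61_gt.JF.Spec
import Pool.Agent.MP_5baa61_gt.JA.ArD

/-! Skeletons of large universal norm on a front, and arrays of families of positions. -/

namespace Pool.Agent.MP_5baa61_gt.JF

open Set Pool.Agent.MP_5baa61_gt.JA
open scoped Classical

namespace T2

theorem mem_skq {g : Gd} {G0 : Finset ℕ} {AA : Set (Finset ℕ)} {c : Finset Cell} :
    c ∈ (skq g G0 AA).2 ↔ ∃ G, G ⊆ G0 ∧ G ∈ AA ∧ c = sq g G := by
  simp only [skq, Finset.mem_image, Finset.mem_filter, Finset.mem_powerset]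
  exact ⟨fun ⟨G, ⟨h1, h2⟩, h3⟩ => ⟨G, h1, h2, h3.symm⟩,
    fun ⟨G, h1, h2, h3⟩ => ⟨G, ⟨h1, h2⟩, h3.symm⟩⟩

theorem skq_le (g : Gd) (AA : Set (Finset ℕ)) {G G' : Finset ℕ} (e : G ⊆ G') :
    Le (skq g G AA) (skq g G' AA) :=
  ⟨sq_mono g e,
    fun _ hc => let ⟨F, h1, h2⟩ := mem_skq.1 hc; mem_skq.2 ⟨F, h1.trans e, h2⟩,
    fun _ hc => let ⟨_, h1, _, h3⟩ := mem_skq.1 hc; h3 ▸ sq_mono g h1⟩

theorem skq_wf {g : Gd} (hg : Grid g) {AA : Set (Finset ℕ)}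
    (hA : ∀ G ∈ AA, (sq g G).Nonempty) (G0 : Finset ℕ) : SkWf (skq g G0 AA) :=
  ⟨hg.disj_pairs ∅ G0, fun _ hc => let ⟨G, h1, h2, h3⟩ := mem_skq.1 hc
    ⟨h3 ▸ sq_mono g h1, h3 ▸ hA G h2⟩⟩

theorem un_at (h1 : T2SStmt) (h2 : T2DStmt) {g : Gd} (hg : Grid g) (a : ℕ) :
    ∀ l, T2At g a (Un a l)
  | 0 => fun _ H hH _ hD => by
    obtain ⟨G, g1, g2⟩ := hD.2.2 H subset_rfl hH
    exact ⟨G, g2, sq g G, mem_skq.2 ⟨G, subset_rfl, g1, rfl⟩⟩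
  | l + 1 => fun AA H hH ha hD => by
    obtain ⟨G1, g1, g2⟩ := h1 g a l hg (un_at h1 h2 hg a l) AA H hH ha hD
    obtain ⟨G2, g3, g4⟩ := h2 g a l hg (un_at h1 h2 hg a l) AA H hH ha hD
    refine ⟨G1 ∪ G2, ?_, g2.up (skq_le g AA Finset.subset_union_left),
      g4.up (skq_le g AA Finset.subset_union_right)⟩
    rw [Finset.coe_union]
    exact union_subset g1 g3

end T2

theorem t2 (h1 : T2SStmt) (h2 : T2DStmt) : T2Stmt := fun _ a l hg AA H hH ha hD =>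
  let ⟨G, g1, g2⟩ := T2.un_at h1 h2 hg a l AA H hH ha hD
  ⟨G, g1, T2.skq_wf hg hD.1 G, g2⟩

open JA.ArD in
theorem arD_ok (h : JA.L1Stmt) : ArDStmt := by
  intro lam a g σ hl hA
  refine ⟨fun k hk => ⟨hk, ?_⟩, Set.Ici_infinite a, fun n => ⟨n, fun k hk hn l hlk => ?_⟩⟩
  · rintro l - _ ⟨l', k', h1, h2, σ', h3, -, rfl⟩
    rw [h2]
    exact wf_comp (fun B hB => (hA.2 l' k' h1).2 B (h3.1.1 hB)) h3.1.2.2 fun B => wf_leaf a B _
  · obtain ⟨⟨m1, m2, m3, -⟩, -⟩ := hA.2 l k hlk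
    have e1 := hA.1.le_left hlk
    have e2 : a ≤ (g.J l k).1 := le_trans hk e1
    refine ((m2.2 (fun B => {P | ∃ x' ⊆ (σ l k).2, lam B x' k ∧ P = leaf a B x'}) fun B hB =>
      ⟨?_, h lam a k B _ hl (e2.trans (m3 B hB).1) (m3 B hB).2⟩).anti
        (Nat.mul_le_mul_right _ (hn.trans e1))).transfer ?_
    · rintro _ ⟨x', -, -, rfl⟩
      exact (wf_leaf a B x').mono e2
    · rintro _ ⟨s, s1, s2, P, hP, rfl⟩
      choose! x x1 x2 x3 using hP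
      have w := m1.of_le s1
      have hy : ∀ B ∈ s.1, ∀ e, inC B e →
          (e ∈ s.1.biUnion (fun B => (x B).filter (inC B)) ↔ e ∈ x B) := fun B hB e he => by
        simp only [Finset.mem_biUnion, Finset.mem_filter]
        exact ⟨fun ⟨B', h1, h2, h3⟩ => w.1.eq h1 hB h3 he ▸ h2, fun h1 => ⟨B, hB, h1, he⟩⟩
      have hz : ∀ B ∈ s.1, leaf a B (s.1.biUnion fun B => (x B).filter (inC B)) = P B :=
        fun B hB => by rw [x3 B hB, leaf_congr (hy B hB)]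
      refine ⟨_, ⟨l, k, hlk, rfl, (s, s.1.biUnion fun B => (x B).filter (inC B)),
        ⟨s1, fun e he => ?_⟩, ⟨w, s2, fun B hB => ⟨(m3 B (s1.1 hB)).1,
          hl.mono _ _ _ _ (x2 B hB) fun e he hi => (hy B hB e hi).2 he⟩, fun e he => ?_⟩, rfl⟩,
        Comp.mono_fam fun B hB => (congrArg Prod.fst (hz B hB)).subset, ?_⟩
      · obtain ⟨B, h1, h2⟩ := Finset.mem_biUnion.1 he
        exact x1 B h1 (Finset.mem_filter.1 h2).1
      · obtain ⟨B, h1, h2⟩ := Finset.mem_biUnion.1 he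
        exact ⟨B, h1, (Finset.mem_filter.1 h2).2⟩
      · rintro _ ⟨c, hc, f, hf, rfl⟩
        exact ⟨_, ⟨c, hc, f, fun B hB => hz B (s1.2.2 c hc hB) ▸ hf B hB, rfl⟩, subset_rfl⟩

end Pool.Agent.MP_5baa61_gt.JF
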