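import Pool.Agent.MP_5baa61_gt.JF.Spec
import Mathlib.Order.Filter.Ultrafilter.Basic
import Mathlib.Order.Filter.AtTopBot.Basic
import Mathlib.Order.Filter.Cofinite

/-! The depth clause for the skeletons over a front. -/

namespace Pool.Agent.MP_5baa61_gt.JF

open Set Filter Pool.Agent.MP_5baa61_gt.JA
open scoped Classical

namespace T2D

/-- The limit of a sequence of sets. -/
def lim {α : Type} (X : ℕ → Set α) : Set α := {x | ∀ᶠ n in (hyperfilter ℕ : Filter ℕ), x ∈ X n}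

theorem lim_ev {α : Type} (X : ℕ → Set α) {S : Set α} (hS : S.Finite) :
    ∀ᶠ n in (hyperfilter ℕ : Filter ℕ), ∀ x ∈ S, (x ∈ X n ↔ x ∈ lim X) := by
  refine (eventually_all_finite hS).2 fun x _ => ?_
  by_cases h : x ∈ lim X
  · exact Eventually.mono h fun n hn => iff_of_true hn h
  · exact (Ultrafilter.eventually_not.2 h).mono fun n hn => iff_of_false hn h

/-- Initial parts of a set. -/
noncomputable def ini (H : Set ℕ) (n : ℕ) : Finset ℕ := (Finset.range n).filter fun k => k ∈ H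

theorem ini_sub (H : Set ℕ) (n : ℕ) : (ini H n : Set ℕ) ⊆ H := fun _ hk =>
  (Finset.mem_filter.1 hk).2

theorem ini_ev {H : Set ℕ} {G : Finset ℕ} (h : (G : Set ℕ) ⊆ H) :
    ∀ᶠ n in (hyperfilter ℕ : Filter ℕ), G ⊆ ini H n := by
  refine Eventually.filter_mono Nat.hyperfilter_le_atTop ?_
  filter_upwards [eventually_gt_atTop (G.sup id)] with n hn k hk
  exact Finset.mem_filter.2 ⟨Finset.mem_range.2 ((Finset.le_sup (f := id) hk).trans_lt hn), h hk⟩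

theorem mem_skq {J : Gd} {G0 : Finset ℕ} {AA : Set (Finset ℕ)} {c : Finset Cell} :
    c ∈ (skq J G0 AA).2 ↔ ∃ G, (G ⊆ G0 ∧ G ∈ AA) ∧ sq J G = c := by
  simp only [skq, Finset.mem_image, Finset.mem_filter, Finset.mem_powerset]

theorem le_skq {J : Gd} {G G' : Finset ℕ} {AA AA' : Set (Finset ℕ)} (h : G ⊆ G')
    (h' : AA ⊆ AA') : Le (skq J G AA) (skq J G' AA') :=
  ⟨sq_mono J h, fun _ hc => let ⟨G1, ⟨h1, h2⟩, h3⟩ := mem_skq.1 hc
    mem_skq.2 ⟨G1, ⟨h1.trans h, h' h2⟩, h3⟩,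
    fun _ hc => let ⟨_, ⟨h1, _⟩, h3⟩ := mem_skq.1 hc; h3 ▸ sq_mono J h1⟩

theorem fam_mono {U : Sk → Prop} {s s' : Sk} {DD DD' : Cell → Set Pos} (h : Le s s')
    (h' : ∀ C ∈ s.1, DD C ⊆ DD' C) : Fam U s DD ⊆ Fam U s' DD' :=
  fun _ ⟨s1, h1, h2, P, h3, h4⟩ => ⟨s1, h1.trans h, h2, P, fun C hC => h' C (h1.1 hC) (h3 C hC), h4⟩

theorem comp_mv {a : ℕ} {W W0 : Finset Cell} {F : Cell → Set Move} (h : W ⊆ W0)
    (hF : ∀ C ∈ W, F C ⊆ Mv C a) : Comp W F ⊆ Mv (0, W0.sup Prod.snd) a := fun t ht p hp => by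
  obtain ⟨C, h1, h2⟩ := ht.1 p hp
  exact ⟨⟨Nat.zero_le _, h2.2.trans_le (Finset.le_sup (f := Prod.snd) (h h1))⟩,
    (hF C h1 (ht.2 C h1) p (mem_rs.2 ⟨hp, h2⟩)).2⟩

theorem wf_sq {J : Gd} {a : ℕ} {H : Set ℕ} {DD : Cell → Set Pos} (h : WfA J a H DD)
    {G : Finset ℕ} (hG : (G : Set ℕ) ⊆ H) : ∀ C ∈ sq J G, ∀ P ∈ DD C, Wf C a P := fun _ hC => by
  obtain ⟨l, k, -, h2, h3, rfl⟩ := mem_sq.1 hC
  exact (h k (hG h2)).2 l h3

theorem ne_sq {J : Gd} {H : Set ℕ} {DD : Cell → Set Pos}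
    (h : ∀ k ∈ H, ∀ t, J.ix t k → (DD (J.J t k)).Nonempty)
    {G : Finset ℕ} (hG : (G : Set ℕ) ⊆ H) : ∀ C ∈ sq J G, (DD C).Nonempty := fun _ hC => by
  obtain ⟨l, k, -, h2, h3, rfl⟩ := mem_sq.1 hC
  exact h k (hG h2) l h3

theorem dns_sub {J : Gd} {AA : Set (Finset ℕ)} {H H' : Set ℕ} (h : Dns J AA H) (e : H' ⊆ H) :
    Dns J AA H' :=
  ⟨h.1, fun G hG G' h1 h2 => h.2.1 G hG G' h1 (h2.trans e), fun H1 h1 => h.2.2 H1 (h1.trans e)⟩

theorem inner (h1 : IR2Stmt) (h2 : CptStmt) {J : Gd} {a : ℕ} {U : Sk → Prop}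
    (hJ : Grid J) (hT : T2At J a U) (d : ℕ) : ∀ (H : Set ℕ) (DD : Cell → Set Pos)
    (AA : Set (Finset ℕ)), WfA J a H DD → Arr J H DD →
      (∀ k ∈ H, ∀ t, J.ix t k → (DD (J.J t k)).Nonempty) →
      Dns J AA H → ∃ G0 : Finset ℕ, (G0 : Set ℕ) ⊆ H ∧ Deep d (Fam U (skq J G0 AA) DD) := by
  induction d with
  | zero =>
    intro H DD AA hw ha hn hd
    obtain ⟨G0, h3, h4⟩ := hT AA H ha.1 (fun k hk => (hw k hk).1) hd
    choose! P hP using ne_sq hn h3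
    exact ⟨G0, h3, _, _, le_skq subset_rfl subset_rfl, h4, P, hP, rfl⟩
  | succ d ih =>
    intro H DD AA hw ha hn hd
    by_contra hc
    have hb : ∀ n, ∃ Y : Set Move,
        ¬ Deep d {P | P ∈ Fam U (skq J (ini H n) AA) DD ∧ Free Y P} ∧
        ¬ Deep d {P | P ∈ Fam U (skq J (ini H n) AA) DD ∧ Tl Y P} := fun n => by
      by_contra hx
      refine hc ⟨ini H n, ini_sub H n, fun Y => ?_⟩
      by_contra hy
      exact hx ⟨Y, not_or.1 hy⟩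
    choose Y hY using hb
    obtain ⟨H', DD', e1, e2, ha', hn', hc'⟩ := h1 J a (lim Y) H DD hJ hw ha
    have hw' : WfA J a H' DD' := fun k hk =>
      ⟨(hw k (e1 hk)).1, fun l hl P hP => (hw k (e1 hk)).2 l hl P (e2 _ hP)⟩
    rcases hc' with hf | hf
    · obtain ⟨G0, h3, h4⟩ := ih H' DD' AA hw' ha' hn' (dns_sub hd e1)
      obtain ⟨n, a1, a2⟩ := ((ini_ev (h3.trans e1)).and
        (lim_ev Y (finite_mv (0, (sq J G0).sup Prod.snd) a))).exists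
      refine (hY n).1 (h4.mono fun Q hQ =>
        ⟨fam_mono (le_skq a1 subset_rfl) (fun C _ => e2 C) hQ, ?_⟩)
      obtain ⟨s, b1, -, P, b2, rfl⟩ := hQ
      intro t ht hy
      have b0 : t ∈ Comp s.1 (MU DD') :=
        Comp.mono_fam (F' := MU DD') (fun C hC u hu => ⟨P C, b2 C hC, hu⟩) ht
      have b3 : t ∈ Comp (sq J G0) (MU DD') :=
        Comp.mono_cells (F := MU DD') (hJ.disj_pairs _ _) b1.1 (fun C hC _ =>
          let ⟨P0, hP0⟩ := ne_sq hn' h3 C hC; ⟨P0, hP0, (wf_sq hw' h3 C hC P0 hP0).1⟩) b0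
      exact hf G0 h3 t b3 ((a2 t (comp_mv b1.1
        (fun C hC => (wf_sq hw' h3 C (b1.1 hC) _ (b2 C hC)).2.1) ht)).1 hy)
    · have hd' : Dns J {G | G ∈ AA ∧ (G : Set ℕ) ⊆ H' ∧ ∀ f : Cell → Set Move,
          (∀ C ∈ sq J G, f C ∈ OU DD' C) → ∃ t ∈ Comp (sq J G) f, t ∈ lim Y} H' := by
        refine ⟨fun G hG => hd.1 G hG.1, fun G hG G' c1 c2 =>
          ⟨hd.2.1 G hG.1 G' c1 (c2.trans e1), c2, fun f hf => ?_⟩, fun H1 c1 c2 => ?_⟩
        · obtain ⟨t, c3, c4⟩ := hG.2.2 f fun C hC => hf C (sq_mono J c1 hC)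
          exact ⟨t, Comp.mono_cells (hJ.disj_pairs _ _) (sq_mono J c1) (fun C hC _ =>
            let ⟨P0, hP0, c5⟩ := hf C hC; ((wf_sq hw' c2 C hC P0 hP0).2.2 _ c5).1) c3, c4⟩
        · obtain ⟨G1, c3, c4⟩ := hd.2.2 H1 (c1.trans e1) c2
          obtain ⟨G2, c5, c6⟩ := h2 J a (lim Y) H' DD' hJ hw' hf H1 c1 c2
          have c7 : ((G1 ∪ G2 : Finset ℕ) : Set ℕ) ⊆ H1 := fun k hk =>
            (Finset.mem_union.1 hk).elim (fun h => c4 h) fun h => c5 h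
          exact ⟨G1 ∪ G2, ⟨hd.2.1 G1 c3 _ Finset.subset_union_left (c7.trans (c1.trans e1)),
            c7.trans c1, c6 _ Finset.subset_union_right (c7.trans c1)⟩, c7⟩
      obtain ⟨G0, h3, h4⟩ := ih H' DD' _ hw' ha' hn' hd'
      obtain ⟨n, a1, a2⟩ := ((ini_ev (h3.trans e1)).and
        (lim_ev Y (finite_mv (0, (sq J G0).sup Prod.snd) a))).exists
      refine (hY n).2 (h4.mono fun Q hQ =>
        ⟨fam_mono (le_skq a1 fun _ hG => hG.1) (fun C _ => e2 C) hQ, ?_⟩)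
      obtain ⟨s, b1, -, P, b2, rfl⟩ := hQ
      rintro _ ⟨c, b3, f, b4, rfl⟩
      obtain ⟨G, ⟨-, b5⟩, rfl⟩ := mem_skq.1 (b1.2.1 b3)
      have b6 := b1.2.2 _ b3
      obtain ⟨t, b7, b8⟩ := b5.2.2 f fun C hC => ⟨P C, b2 C (b6 hC), b4 C hC⟩
      exact ⟨t, b7, (a2 t (comp_mv (b6.trans b1.1) (fun C hC =>
        ((wf_sq hw' h3 C (b1.1 (b6 hC)) _ (b2 C (b6 hC))).2.2 _ (b4 C hC)).2) b7)).2 b8⟩

theorem deep_dummy : ∀ d, Deep d {(({∅}, {{∅}}) : Pos)}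
  | 0 => singleton_nonempty _
  | d + 1 => fun Y => by
    by_cases h : ∅ ∈ Y
    · refine Or.inr ((deep_dummy d).mono ?_)
      rintro _ rfl
      exact ⟨rfl, by rintro _ rfl; exact ⟨∅, rfl, h⟩⟩
    · refine Or.inl ((deep_dummy d).mono ?_)
      rintro _ rfl
      exact ⟨rfl, by rintro _ rfl; exact h⟩

theorem wf_dummy (C : Cell) (a : ℕ) : Wf C a ({∅}, {{∅}}) := by
  have h : ({∅} : Set Move) ⊆ Mv C a := by
    rintro _ rfl p hp
    exact absurd hp (Finset.notMem_empty _)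
  exact ⟨rfl, h, by rintro _ rfl; exact ⟨rfl, h⟩⟩

theorem finite_wf (C : Cell) (a : ℕ) : {P | Wf C a P}.Finite :=
  ((finite_mv C a).finite_subsets.prod (finite_mv C a).finite_subsets.finite_subsets).subset
    fun _ hP => ⟨hP.2.1, fun o ho => (hP.2.2 o ho).2⟩

end T2D

open T2D in
theorem t2d (h1 : IR2Stmt) (h2 : CptStmt) : T2DStmt := by
  intro J a l hJ hT AA H hH ha hd
  by_contra hc
  have hb : ∀ n, ∃ DD : Cell → Set Pos, (∀ C ∈ sq J (ini H n),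
      (∀ P ∈ DD C, Wf C a P) ∧ Deep (dD C.1) (DD C)) ∧
      ¬ Deep (dD a) (Fam (Un a l) (skq J (ini H n) AA) DD) := fun n => by
    by_contra hx
    refine hc ⟨ini H n, ini_sub H n, fun DD hD => ?_⟩
    by_contra hy
    exact hx ⟨DD, hD, hy⟩
  choose D hD hN using hb
  have he : ∀ G : Finset ℕ, (G : Set ℕ) ⊆ H → ∀ C ∈ sq J G,
      ∀ᶠ n in (hyperfilter ℕ : Filter ℕ), C ∈ sq J (ini H n) ∧ D n C = lim fun n => D n C := by
    intro G hG C hC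
    have a1 := (ini_ev hG).mono fun n hn => sq_mono J hn hC
    filter_upwards [a1, lim_ev (fun n => D n C) (finite_wf C a)] with n b1 b2
    refine ⟨b1, Subset.antisymm (fun P hP => (b2 P ((hD n C b1).1 P hP)).1 hP) fun P hP => ?_⟩
    obtain ⟨m, b3, b4⟩ := (a1.and hP).exists
    exact (b2 P ((hD m C b3).1 P b4)).2 hP
  obtain ⟨DD, e1, e2⟩ : ∃ DD : Cell → Set Pos,
      (∀ C, (∀ P ∈ DD C, Wf C a P) ∧ Deep (dD C.1) (DD C)) ∧
      ∀ G : Finset ℕ, (G : Set ℕ) ⊆ H → ∀ C ∈ sq J G, DD C = lim fun n => D n C := by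
    refine ⟨fun C => if ∃ G : Finset ℕ, (G : Set ℕ) ⊆ H ∧ C ∈ sq J G then lim fun n => D n C
      else {({∅}, {{∅}})}, fun C => ?_, fun G hG C hC => if_pos ⟨G, hG, hC⟩⟩
    dsimp only
    split_ifs with h
    · obtain ⟨G, hG, hC⟩ := h
      obtain ⟨n, b1, b2⟩ := (he G hG C hC).exists
      exact b2 ▸ hD n C b1
    · exact ⟨by rintro _ rfl; exact wf_dummy C a, deep_dummy _⟩
  obtain ⟨G0, h3, h4⟩ := inner h1 h2 hJ hT (dD a) H DD AA
    (fun k hk => ⟨ha k hk, fun l _ => (e1 _).1⟩)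
    ⟨hH, fun n => ⟨n, fun k _ hk l hl => (e1 _).2.anti
      (Nat.mul_le_mul_right _ (hk.trans (hJ.le_left hl)))⟩⟩
    (fun k _ l _ => (e1 _).2.nonempty) hd
  obtain ⟨n, a1, a2⟩ := ((ini_ev h3).and
    ((eventually_all_finset (sq J G0)).2 (he G0 h3))).exists
  exact hN n (h4.mono (fam_mono (le_skq a1 subset_rfl)
    fun C hC => ((e2 G0 h3 C hC).trans (a2 C hC).2.symm).subset))

end Pool.Agent.MP_5baa61_gt.JF
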