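import Pool.Agent.MP_5baa61_gt.JF.Spec
import Mathlib.Order.Filter.Ultrafilter.Basic
import Mathlib.Order.Filter.Cofinite
import Mathlib.Order.Filter.AtTopBot.Basic
import Mathlib.Data.Fintype.Basic
import Mathlib.Data.Set.Finite.Powerset

/-! The splitting clause and compactness of acceptance on a front. -/

namespace Pool.Agent.MP_5baa61_gt.JF

open Set Filter Pool.Agent.MP_5baa61_gt.JA
open scoped Classical

namespace T2S

theorem skq_le (g : Gd) (AA : Set (Finset ℕ)) {G G' : Finset ℕ} (h : G ⊆ G') :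
    Le (skq g G AA) (skq g G' AA) := by
  refine ⟨sq_mono g h, Finset.image_subset_image (Finset.filter_subset_filter _
    (Finset.powerset_mono.2 h)), fun c hc => ?_⟩
  obtain ⟨G1, h1, rfl⟩ := Finset.mem_image.1 hc
  exact sq_mono g (Finset.mem_powerset.1 (Finset.mem_filter.1 h1).1)

/-- The initial segments of a set. -/
noncomputable def seg (H : Set ℕ) (n : ℕ) : Finset ℕ := (Finset.range n).filter fun k => k ∈ H

theorem seg_sub (H : Set ℕ) (n : ℕ) : (seg H n : Set ℕ) ⊆ H :=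
  fun _ hk => (Finset.mem_filter.1 hk).2

theorem ev_mem {H : Set ℕ} {k : ℕ} (hk : k ∈ H) :
    ∀ᶠ n in (hyperfilter ℕ : Filter ℕ), k ∈ seg H n :=
  Filter.Eventually.filter_mono (hyperfilter_le_cofinite.trans Nat.cofinite_eq_atTop.le)
    ((eventually_gt_atTop k).mono fun _ hn => Finset.mem_filter.2 ⟨Finset.mem_range.2 hn, hk⟩)

theorem ev_sub {H : Set ℕ} {G : Finset ℕ} (hG : (G : Set ℕ) ⊆ H) :
    ∀ᶠ n in (hyperfilter ℕ : Filter ℕ), G ⊆ seg H n :=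
  ((eventually_all_finset G).2 fun _ hk => ev_mem (hG hk)).mono fun _ hn => hn

end T2S

open T2S

theorem t2s (h : RamStmt) : T2SStmt := by
  intro g a l hg hT AA H hH ha hD
  by_contra hn
  have h1 : ∀ n, ∃ W1 : Finset Cell, ∀ s', Le s' (skq g (seg H n) AA) → Un a l s' →
      ¬ (s'.1 ⊆ W1 ∨ ∀ C ∈ s'.1, C ∉ W1) := fun n => by
    by_contra h2
    refine hn ⟨seg H n, seg_sub H n, fun W1 => ?_⟩
    by_contra h3
    exact h2 ⟨W1, fun s' a1 a2 a3 => h3 ⟨s', a1, a2, a3⟩⟩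
  choose W hW using h1
  obtain ⟨H', a1, a2, a3⟩ :=
    h g.B (fun t k => ∀ᶠ n in (hyperfilter ℕ : Filter ℕ), g.J t k ∈ W n) H hg.thin hH
  obtain ⟨G0, b1, b2⟩ := hT AA H' a2 (fun k hk => ha k (a1 hk))
    ⟨hD.1, fun G hG G' e e' => hD.2.1 G hG G' e (e'.trans a1),
      fun H'' e e' => hD.2.2 H'' (e.trans a1) e'⟩
  have b3 : ∀ᶠ n in (hyperfilter ℕ : Filter ℕ), sq g G0 ⊆ W n ∨ ∀ C ∈ sq g G0, C ∉ W n := by
    rcases a3 with a3 | a3
    · refine ((eventually_all_finset (sq g G0)).2 fun C hC => ?_).mono fun n hn => Or.inl hn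
      obtain ⟨t, k, c1, c2, c3, rfl⟩ := mem_sq.1 hC
      exact a3 t k c3.1 (fun i hi => b1 (c1 hi)) (b1 c2) c3.2.2
    · refine ((eventually_all_finset (sq g G0)).2 fun C hC => ?_).mono fun n hn => Or.inr hn
      obtain ⟨t, k, c1, c2, c3, rfl⟩ := mem_sq.1 hC
      exact Ultrafilter.eventually_not.2 (a3 t k c3.1 (fun i hi => b1 (c1 hi)) (b1 c2) c3.2.2)
  obtain ⟨n, c1, c2⟩ := (b3.and (ev_sub (b1.trans a1))).exists
  exact hW n _ (skq_le g AA c2) b2 c1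

theorem cpt : CptStmt := by
  intro g a Y H DD hJ hW hA H' hH' hi
  by_contra hn
  have h1 : ∀ n, ∃ (G' : Finset ℕ) (f : Cell → Set Move), seg H' n ⊆ G' ∧ (G' : Set ℕ) ⊆ H ∧
      (∀ C ∈ sq g G', f C ∈ OU DD C) ∧ ¬ ∃ t ∈ Comp (sq g G') f, t ∈ Y := fun n => by
    by_contra h2
    refine hn ⟨seg H' n, seg_sub H' n, fun G' a1 a2 f a3 => ?_⟩
    by_contra h3
    exact h2 ⟨G', f, a1, a2, a3, h3⟩
  choose G' F a1 a2 a3 a4 using h1
  have hw : ∀ t k, k ∈ H → g.ix t k → ∀ o ∈ OU DD (g.J t k), ∅ ∈ o ∧ o ⊆ Mv (g.J t k) a :=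
    fun t k hk hl o ⟨P, b1, b2⟩ => ((hW k hk).2 t hl P b1).2.2 o b2
  have h2 : ∀ C : Cell, ∃ o : Set Move, ∀ (t : Finset ℕ) k, (t : Set ℕ) ⊆ H' → k ∈ H' → g.ix t k →
      C = g.J t k → o ∈ OU DD C ∧ ∀ᶠ n in (hyperfilter ℕ : Filter ℕ), F n C = o := fun C => by
    by_cases hC : ∃ (t : Finset ℕ) (k : ℕ), (t : Set ℕ) ⊆ H' ∧ k ∈ H' ∧ g.ix t k ∧ C = g.J t k
    · obtain ⟨t, k, b1, b2, b3, rfl⟩ := hC
      have b4 : (OU DD (g.J t k)).Finite :=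
        (finite_mv (g.J t k) a).finite_subsets.subset fun o ho => (hw t k (hH' b2) b3 o ho).2
      obtain ⟨o, b5, b6⟩ := (Ultrafilter.eventually_exists_mem_iff (f := hyperfilter ℕ)
        (P := fun o n => F n (g.J t k) = o) b4).1 (((ev_sub b1).and (ev_mem b2)).mono fun n hn =>
          ⟨_, a3 n _ (mem_sq.2 ⟨t, k, hn.1.trans (a1 n), a1 n hn.2, b3, rfl⟩), rfl⟩)
      exact ⟨o, fun _ _ _ _ _ _ => ⟨b5, b6⟩⟩
    · exact ⟨∅, fun t k b1 b2 b3 b4 => absurd ⟨t, k, b1, b2, b3, b4⟩ hC⟩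
  choose f hf using h2
  obtain ⟨G, c1, u, c2, c3⟩ := hA H' hH' hi f fun k hk t hl e =>
    (hf _ t k (fun i hi => (e i hi).resolve_left (Finset.notMem_empty _)) hk hl rfl).1
  have c4 : ∀ᶠ n in (hyperfilter ℕ : Filter ℕ), ∀ C ∈ sq g G, F n C = f C :=
    (eventually_all_finset (sq g G)).2 fun C hC =>
      let ⟨t, k, d1, d2, d3, d4⟩ := mem_sq.1 hC
      (hf C t k (fun _ hi => c1 (d1 hi)) (c1 d2) d3 d4).2
  obtain ⟨n, d1, d2⟩ := (c4.and (ev_sub c1)).exists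
  refine a4 n ⟨u, Comp.mono_cells (hJ.disj_pairs ∅ (G' n)) (sq_mono g (d2.trans (a1 n)))
    (fun C hC _ => ?_) (Comp.mono_fam (fun C hC => (d1 C hC).ge) c2), by simpa using c3⟩
  obtain ⟨t, k, -, e2, e3, rfl⟩ := mem_sq.1 hC
  exact (hw t k (a2 n e2) e3 _ (a3 n _ hC)).1

end Pool.Agent.MP_5baa61_gt.JF
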