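import Pool.Agent.MP_5baa61_gt.JF.Spec
import Mathlib.Order.Interval.Finset.Nat
import Mathlib.Order.Interval.Finset.Basic

/-! The free alternative for an array of states on a front, and the dichotomy. -/

namespace Pool.Agent.MP_5baa61_gt.JF

open Set Pool.Agent.MP_5baa61_gt.JA

theorem tlkF : TlkFStmt := by
  classical
  intro lam Pi a X g σ H DD hl hon hA hH hD hne hfree
  have ex : ∀ l k, ∃ σ' : Sta, g.ix l k → k ∈ H → Sub σ' (σ l k) ∧ Mod lam (g.J l k).1 k σ' ∧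
      (CompP σ'.1 fun B => leaf a B σ'.2) ∈ DD (g.J l k) := by
    intro l k
    by_cases h : g.ix l k ∧ k ∈ H
    · obtain ⟨Q, hQ⟩ := hne k h.2 l h.1
      obtain ⟨l', k', h1, h2, σ', h3, h4, rfl⟩ := hD _ hQ
      obtain ⟨rfl, rfl⟩ := hA.1.inj h.1 h1 h2
      exact ⟨σ', fun _ _ => ⟨h3, h4, hQ⟩⟩
    · exact ⟨σ l k, fun h1 h2 => absurd ⟨h1, h2⟩ h⟩
  choose σ' hσ using ex
  refine ⟨σ', fun n => ?_, fun l k h1 _ h2 => ⟨(hσ l k h1 h2).1, (hσ l k h1 h2).2.1⟩, ?_⟩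
  · obtain ⟨k, h1, h2⟩ := hH.exists_gt n
    exact ⟨k, h2.le, h1⟩
  rintro t ht ⟨γ, h1, h2⟩
  have hin : ∀ l k e, g.ix l k → k ∈ H → e ∈ (σ' l k).2 → inC (g.J l k) e := by
    intro l k e h3 h4 h5
    obtain ⟨B, h6, h7⟩ := (hσ l k h3 h4).2.1.2.2.2 e h5
    have h8 := (hA.2 l k h3).2 B ((hσ l k h3 h4).1.1.1 h6)
    exact ⟨h8.1.trans h7.1, h7.2.trans_le h8.2⟩
  choose! l k hlk using fun q hq => (h1 q hq).2.2.2
  have hG : ((t.biUnion l ∪ t.image k : Finset ℕ) : Set ℕ) ⊆ H := by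
    intro i hi
    rcases Finset.mem_union.1 (Finset.mem_coe.1 hi) with h | h
    · obtain ⟨q, hq, h3⟩ := Finset.mem_biUnion.1 h
      exact (hlk q hq).2.1 i h3
    · obtain ⟨q, hq, rfl⟩ := Finset.mem_image.1 h
      exact (hlk q hq).2.2.1
  have hm : ∀ q ∈ t, g.J (l q) (k q) ∈ sq g (t.biUnion l ∪ t.image k) := fun q hq =>
    mem_sq.2 ⟨_, _, fun i hi => Finset.mem_union_left _ (Finset.mem_biUnion.2 ⟨q, hq, hi⟩),
      Finset.mem_union_right _ (Finset.mem_image_of_mem _ hq), (hlk q hq).1, rfl⟩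
  have hi : ∀ q ∈ t, inC (g.J (l q) (k q)) q.1 := fun q hq =>
    hin _ _ _ (hlk q hq).1 (hlk q hq).2.2.1 (hlk q hq).2.2.2
  refine hfree _ hG t ⟨fun q hq => ⟨_, hm q hq, hi q hq⟩, fun C hC => ?_⟩ ht
  obtain ⟨l0, k0, -, h4, h5, rfl⟩ := mem_sq.1 hC
  obtain ⟨-, hM, hP⟩ := hσ l0 k0 h5 (hG h4)
  have hx : ∀ q ∈ rs t (g.J l0 k0), q.1 ∈ (σ' l0 k0).2 := by
    intro q hq
    obtain ⟨h7, h6⟩ := mem_rs.1 hq
    obtain ⟨e1, e2⟩ := hA.1.inj h5 (hlk q h7).1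
      ((hA.1.disj_pairs ∅ _).eq hC (hm q h7) h6 (hi q h7))
    rw [e1, e2]
    exact (hlk q h7).2.2.2
  refine ⟨_, hP, fun q hq => hM.2.2.2 _ (hx q hq), fun B hB => ?_⟩
  have hPi : Pi B := hon.1 _ _ (hl.le (hM.2.2.1 B hB).2 h5.2.1)
  have hg : ∀ q ∈ rs (rs t (g.J l0 k0)) B, q ∈ t ∧ γ q = B := by
    intro q hq
    obtain ⟨hq, h6⟩ := mem_rs.1 hq
    have h7 := (mem_rs.1 hq).1
    exact ⟨h7, hon.2 _ _ _ (h1 q h7).1 hPi (h1 q h7).2.1 h6⟩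
  rcases (rs (rs t (g.J l0 k0)) B).eq_empty_or_nonempty with h | ⟨q, hq⟩
  · exact Or.inl h
  · refine Or.inr ⟨q.1, hx q (mem_rs.1 hq).1, (mem_rs.1 hq).2, q.2, (h1 q (hg q hq).1).2.2.1,
      Finset.eq_singleton_iff_unique_mem.2 ⟨hq, fun p hp => ?_⟩⟩
    exact h2 p (hg p hp).1 q (hg q hq).1 ((hg p hp).2.trans (hg q hq).2.symm)

theorem tlk (h0 : ArDStmt) (h1 : IR2Stmt) (h2 : TlkFStmt) (h3 : TlkAStmt) : TlkStmt := by
  intro lam Pi a X g σ hl hon hF hA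
  obtain ⟨hW, hR⟩ := h0 lam a g σ hl hA
  obtain ⟨H, DD, e1, e2, hR', hne, h | h⟩ := h1 g a {t | X t} _ _ hA.1 hW hR
  · obtain ⟨σ', hk⟩ := h2 lam Pi a X g σ H DD hl hon hA hR'.1 e2 hne h
    exact Or.inl ⟨_, σ', hk⟩
  · exact Or.inr (h3 lam a X g σ H DD hl hF hA hR'.1 (fun k hk => ⟨(hW k (e1 hk)).1,
      fun l h4 P hP => (hW k (e1 hk)).2 l h4 P (e2 _ hP)⟩) e2 hne h)

end Pool.Agent.MP_5baa61_gt.JF
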