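import Pool.Agent.MP_5baa61_gt.JA.ArD
import Pool.Agent.MP_5baa61_gt.JA.IR2
import Pool.Agent.MP_5baa61_gt.JA.Pass1
import Pool.Agent.MP_5baa61_gt.JA.Split
import Pool.Agent.MP_5baa61_gt.JA.Step
import Pool.Agent.MP_5baa61_gt.JA.T2
import Pool.Agent.MP_5baa61_gt.JA.T2D
import Pool.Agent.MP_5baa61_gt.JA.T2S
import Pool.Agent.MP_5baa61_gt.JA.Tuple
import Pool.Agent.MP_5baa61_gt.JA.U5
import Pool.Agent.MP_5baa61_gt.JF.IR2
import Pool.Agent.MP_5baa61_gt.JF.Nu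
import Pool.Agent.MP_5baa61_gt.JF.Pass1
import Pool.Agent.MP_5baa61_gt.JF.Ram
import Pool.Agent.MP_5baa61_gt.JF.Step
import Pool.Agent.MP_5baa61_gt.JF.T2
import Pool.Agent.MP_5baa61_gt.JF.T2D
import Pool.Agent.MP_5baa61_gt.JF.T2S
import Pool.Agent.MP_5baa61_gt.JF.TlkA
import Pool.Agent.MP_5baa61_gt.JF.TlkF

/-! The creature lemmas without hypotheses. -/

namespace Pool.Agent.MP_5baa61_gt.JF

theorem all_u5 : JA.U5Stmt := JA.u5
theorem all_u6 : JA.U6Stmt := JA.u6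
theorem all_u7 : JA.U7Stmt := JA.u7 JA.u5
theorem all_split : JA.SplitStmt := JA.split
theorem all_cmp : JA.CmpStmt := JA.cmp_ok JA.u5
theorem all_t1 : JA.T1Stmt :=
  JA.t1 (JA.t2 (JA.t2s JA.ram) (JA.t2d (JA.ir2 JA.pass1 (JA.step JA.tuple)) JA.cpt))
theorem all_ir2 : IR2Stmt := ir2 pass1 (step JA.tuple)
theorem all_t2 : T2Stmt := t2 (t2s ram) (t2d all_ir2 cpt)
theorem all_tlk : TlkStmt := tlk (arD_ok JA.l1) all_ir2 tlkF (tlkA cpt all_t2 all_cmp)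
theorem all_nu : NuStmt := nu

end Pool.Agent.MP_5baa61_gt.JF
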