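import Pool.Agent.MP_5baa61_gt.JF.Spec

/-! Every norm on finite sets gives skeletons of large universal norm on singleton cells. -/

namespace Pool.Agent.MP_5baa61_gt.JF

open Set Pool.Agent.MP_5baa61_gt.JA
open scoped Classical

namespace Nu

variable {ν : ℕ → Finset ℕ → Prop}

theorem Nrm.le (h : Nrm ν) {c c' : ℕ} {x : Finset ℕ} (h1 : ν c x) (e : c' ≤ c) : ν c' x := by
  induction e with
  | refl => exact h1
  | step _ ih => exact ih (h.anti _ _ h1)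

theorem mem_off {m : ℕ} {x : Finset ℕ} {c : Finset Cell} :
    c ∈ (skN ν m x).2 ↔ ∃ y, y ⊆ x ∧ ν m y ∧ c = y.image sing := by
  simp only [skN, Finset.mem_image, Finset.mem_filter, Finset.mem_powerset]
  exact ⟨fun ⟨y, ⟨h1, h2⟩, h3⟩ => ⟨y, h1, h2, h3.symm⟩, fun ⟨y, h1, h2, h3⟩ => ⟨y, ⟨h1, h2⟩, h3.symm⟩⟩

theorem wf (h : Nrm ν) {m : ℕ} (hm : 1 ≤ m) (x : Finset ℕ) : SkWf (skN ν m x) := by
  refine ⟨⟨fun J hJ => ?_, fun J hJ J' hJ' hn => ?_⟩, fun c hc => ?_⟩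
  · obtain ⟨e, -, rfl⟩ := Finset.mem_image.1 hJ
    exact Nat.lt_succ_self e
  · obtain ⟨e, -, rfl⟩ := Finset.mem_image.1 hJ
    obtain ⟨e', -, rfl⟩ := Finset.mem_image.1 hJ'
    have : e ≠ e' := fun e => hn (by rw [e])
    simp only [sing]
    omega
  · obtain ⟨y, h1, h2, rfl⟩ := mem_off.1 hc
    exact ⟨Finset.image_subset_image h1, (h.ne y (Nrm.le h h2 hm)).image _⟩

theorem le_sk (h : Nrm ν) {m m' : ℕ} {x x' : Finset ℕ} (e : x' ⊆ x) (e' : m ≤ m') :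
    Le (skN ν m' x') (skN ν m x) := by
  refine ⟨Finset.image_subset_image e, fun c hc => ?_, fun c hc => ?_⟩
  · obtain ⟨y, h1, h2, rfl⟩ := mem_off.1 hc
    exact mem_off.2 ⟨y, h1.trans e, Nrm.le h h2 e', rfl⟩
  · obtain ⟨y, h1, -, rfl⟩ := mem_off.1 hc
    exact Finset.image_subset_image h1

/-- Deciding finitely many single moves. -/
theorem decide (S : Finset Move) : ∀ D : Set Pos, Deep S.card D →
    ∃ P ∈ D, ∀ t ∈ S, t ∈ P.1 → ∀ o ∈ P.2, t ∈ o := by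
  induction S using Finset.induction_on with
  | empty => exact fun D ⟨P, hP⟩ => ⟨P, hP, fun _ h => absurd h (Finset.notMem_empty _)⟩
  | insert t S ht ih =>
    intro D hD
    rw [Finset.card_insert_of_notMem ht] at hD
    rcases hD {t} with h | h <;> obtain ⟨P, hP, h1⟩ := ih _ h <;>
      refine ⟨P, hP.1, fun u hu hu' o ho => ?_⟩ <;> rcases Finset.mem_insert.1 hu with rfl | hu
    · exact absurd rfl (hP.2 _ hu')
    · exact h1 u hu hu' o ho
    · obtain ⟨v, h2, rfl⟩ := hP.2 o ho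
      exact h2
    · exact h1 u hu hu' o ho

theorem pick {a e : ℕ} (h : a ≤ e) {D : Set Pos} (h1 : ∀ P ∈ D, Wf (sing e) a P)
    (h2 : Deep (dD e) D) : ∃ P ∈ D, ∀ o ∈ P.2, P.1 ⊆ o := by
  have hc : (({e} ×ˢ Finset.range a : Finset (ℕ × ℕ)).powerset).card ≤ dD e ∨ a = 0 := by
    rcases Nat.eq_zero_or_pos a with h0 | h0
    · exact Or.inr h0
    · refine Or.inl ?_
      rw [Finset.card_powerset, Finset.card_product, Finset.card_singleton, Finset.card_range,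
        one_mul]
      have : a ≤ e * e := h.trans (Nat.le_mul_self e)
      exact (Nat.pow_le_pow_right (by norm_num) this).trans
        (Nat.le_mul_of_pos_left _ (h0.trans_le h))
  rcases hc with hc | rfl
  · obtain ⟨P, hP, h3⟩ := decide _ D (h2.anti hc)
    refine ⟨P, hP, fun o ho t ht => h3 t ?_ ht o ho⟩
    refine Finset.mem_powerset.2 fun p hp => ?_
    have := (h1 P hP).2.1 ht p hp
    simp only [inC, sing] at this
    exact Finset.mem_product.2 ⟨Finset.mem_singleton.2 (by omega), Finset.mem_range.2 this.2⟩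
  · obtain ⟨P, hP⟩ := h2.nonempty
    refine ⟨P, hP, fun o ho t ht => ?_⟩
    have : t = ∅ := Finset.eq_empty_of_forall_notMem fun p hp =>
      absurd ((h1 P hP).2.1 ht p hp).2 (Nat.not_lt_zero _)
    rw [this]
    exact ((h1 P hP).2.2 o ho).1

/-- The inner induction of clause (D). -/
theorem inner (a l : ℕ) (ih : ∀ m, 1 ≤ m → ∃ M, ∀ (ν : ℕ → Finset ℕ → Prop) (x : Finset ℕ),
    Nrm ν → (∀ e ∈ x, a ≤ e) → ν M x → Un a l (skN ν m x)) (d : ℕ) :
    ∀ m, 1 ≤ m → ∃ M, m ≤ M ∧ ∀ (ν : ℕ → Finset ℕ → Prop) (x : Finset ℕ) (P : Cell → Pos),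
      Nrm ν → (∀ e ∈ x, a ≤ e) → ν M x →
      (∀ e ∈ x, ∅ ∈ (P (sing e)).1 ∧ ∀ o ∈ (P (sing e)).2, (P (sing e)).1 ⊆ o) →
      Deep d (Fam (Un a l) (skN ν m x) fun J => {P J}) := by
  induction d with
  | zero =>
    intro m hm
    obtain ⟨M, hM⟩ := ih m hm
    refine ⟨max m M, le_max_left _ _, fun ν x P h h1 h2 _ => ⟨_, skN ν m x, le_sk h subset_rfl le_rfl,
      hM ν x h h1 (Nrm.le h h2 (le_max_right _ _)), P, fun _ _ => rfl, rfl⟩⟩
  | succ d ihd =>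
    intro m hm
    obtain ⟨M1, e1, hM1⟩ := ihd m hm
    obtain ⟨M2, e2, hM2⟩ := ihd M1 (hm.trans e1)
    refine ⟨M2, e1.trans e2, fun ν x P h h1 h2 h3 Y => ?_⟩
    by_cases hf : ∃ x' ⊆ x, ν M1 x' ∧ ∀ t ∈ Comp (x'.image sing) fun J => (P J).1, t ∉ Y
    · obtain ⟨x', e, h4, h5⟩ := hf
      refine Or.inl ((hM1 ν x' P h (fun i hi => h1 i (e hi)) h4 fun i hi => h3 i (e hi)).mono ?_)
      rintro Q hQ
      refine ⟨Fam.up (le_sk h e le_rfl) _ hQ, ?_⟩
      obtain ⟨s', h6, -, P', h7, rfl⟩ := hQ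
      intro t ht
      refine h5 t (Comp.mono_cells (wf h hm x').1 h6.1 (fun J hJ _ => ?_)
        (Comp.mono_fam (fun J hJ => ?_) ht))
      · obtain ⟨i, hi, rfl⟩ := Finset.mem_image.1 hJ
        exact (h3 i (e hi)).1
      · rw [show P' J = P J from h7 J hJ]
    · refine Or.inr ((hM2 ν x P h h1 h2 h3).mono ?_)
      rintro Q hQ
      refine ⟨Fam.up (le_sk h subset_rfl e1) _ hQ, ?_⟩
      obtain ⟨s', h6, -, P', h7, rfl⟩ := hQ
      rintro _ ⟨c, hc, f, h8, rfl⟩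
      obtain ⟨y, h9, h10, rfl⟩ := mem_off.1 (h6.2.1 hc)
      push Not at hf
      obtain ⟨t, h11, h12⟩ := hf y h9 h10
      refine ⟨t, Comp.mono_fam (fun J hJ => ?_) h11, h12⟩
      obtain ⟨e, he, rfl⟩ := Finset.mem_image.1 hJ
      have := h8 _ hJ
      rw [show P' (sing e) = P (sing e) from h7 _ (h6.2.2 _ hc hJ)] at this
      exact (h3 e (h9 he)).2 _ this

end Nu

open Nu in
theorem nu : NuStmt := by
  suffices H : ∀ a l m : ℕ, 1 ≤ m → ∃ M, ∀ (ν : ℕ → Finset ℕ → Prop) (x : Finset ℕ),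
      Nrm ν → (∀ e ∈ x, a ≤ e) → ν M x → Un a l (skN ν m x) from fun a l m hm =>
    let ⟨M, hM⟩ := H a l m hm
    ⟨M, fun ν x h h1 h2 => ⟨wf h hm x, hM ν x h h1 h2⟩⟩
  intro a l
  induction l with
  | zero => exact fun m _ => ⟨m, fun ν x _ _ h2 => ⟨_, mem_off.2 ⟨x, subset_rfl, h2, rfl⟩⟩⟩
  | succ l ih =>
    intro m hm
    obtain ⟨M1, h1⟩ := ih m hm
    obtain ⟨M2, -, h2⟩ := inner a l ih (dD a) m hm
    refine ⟨max (M1 + 1) M2, fun ν x h hx hM => ⟨fun W1 => ?_, fun DD hD => ?_⟩⟩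
    · rcases h.spl M1 x (x.filter fun e => sing e ∈ W1) (Nrm.le h hM (le_max_left _ _)) with h3 | h3
      · refine ⟨_, le_sk h Finset.inter_subset_left le_rfl,
          h1 ν _ h (fun e he => hx e (Finset.mem_inter.1 he).1) h3, Or.inl fun J hJ => ?_⟩
        obtain ⟨e, he, rfl⟩ := Finset.mem_image.1 hJ
        exact (Finset.mem_filter.1 (Finset.mem_inter.1 he).2).2
      · refine ⟨_, le_sk h Finset.sdiff_subset le_rfl,
          h1 ν _ h (fun e he => hx e (Finset.mem_sdiff.1 he).1) h3, Or.inr fun J hJ hW => ?_⟩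
        obtain ⟨e, he, rfl⟩ := Finset.mem_image.1 hJ
        exact (Finset.mem_sdiff.1 he).2 (Finset.mem_filter.2 ⟨(Finset.mem_sdiff.1 he).1, hW⟩)
    · have hP : ∀ J : Cell, ∃ P : Pos, J ∈ x.image sing → P ∈ DD J ∧ ∀ o ∈ P.2, P.1 ⊆ o := by
        intro J
        by_cases hJ : J ∈ x.image sing
        · obtain ⟨e, he, rfl⟩ := Finset.mem_image.1 hJ
          obtain ⟨P, h3⟩ := pick (hx e he) (hD _ hJ).1 (hD _ hJ).2
          exact ⟨P, fun _ => h3⟩
        · exact ⟨(∅, ∅), fun h => absurd h hJ⟩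
      choose P hP using hP
      refine (h2 ν x P h hx (Nrm.le h hM (le_max_right _ _)) fun e he => ?_).mono ?_
      · have hJ := Finset.mem_image_of_mem sing he
        exact ⟨((hD _ hJ).1 _ (hP _ hJ).1).1, (hP _ hJ).2⟩
      · rintro _ ⟨s', h3, h4, P', h5, rfl⟩
        refine ⟨s', h3, h4, P', fun J hJ => ?_, rfl⟩
        rw [show P' J = P J from h5 J hJ]
        exact (hP J (h3.1 hJ)).1

end Pool.Agent.MP_5baa61_gt.JF
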